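import Mathlib

/-!
# The face lattice of the cone of nonnegative polygonal measures is not determined by the
oriented matroid

For a finite spanning set `S` in the plane, `Kpos S` is the cone of the nonnegative measures in
the real span of the standard measures of the triangles with vertices in `S`. Problem
MP_41af23_an asks to prove or to disprove that the face lattices of `Kpos S` and `Kpos S'` are
isomorphic whenever `S` and `S'` have the same oriented matroid. This file disproves it.

Both sets are the vertex sets of convex hexagons, so that they have the same oriented matroid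
and no three of their points are collinear. For `S'` the three long diagonals meet in one point
and there are 24 chambers; for `S` they form a small triangle and there are 25 chambers. In both
cases each chamber gives a facet: for each chamber there is a measure in the span whose density
is zero on this chamber and positive on all the others (lists `LA` and `LB`). The chambers
therefore give 24 and 25 maximal proper faces, and the face lattices are not isomorphic.
-/

set_option autoImplicit false

open MeasureTheory Set

namespace Pool.Agent.Results.MP_41af23_an.ConvexHexagons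

/-! ### Faces of a polyhedral cone -/

/-- The faces of a convex set `K`: the nonempty convex subsets `F` of `K` such that both ends of a
segment of `K` lie in `F` as soon as some inner point of the segment does. -/
def Face {V : Type*} [AddCommGroup V] [Module ℝ V] (K : Set V) : Type _ :=
  {F : Set V // F.Nonempty ∧ Convex ℝ F ∧ IsExtreme ℝ K F}

/-- The faces of `K` are ordered by inclusion. -/
instance {V : Type*} [AddCommGroup V] [Module ℝ V] (K : Set V) : PartialOrder (Face K) :=
  Subtype.partialOrder _

/-- `g` is maximal among the elements which are not maximal. -/
def MaxProper {α : Type*} [PartialOrder α] (g : α) : Prop :=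
  (∃ t, g < t) ∧ ∀ h, g ≤ h → (∃ t, h < t) → h = g

theorem MaxProper.map {α β : Type*} [PartialOrder α] [PartialOrder β] (e : α ≃o β) {g : α}
    (hg : MaxProper g) : MaxProper (e g) := by
  obtain ⟨⟨t, ht⟩, h⟩ := hg
  refine ⟨⟨e t, e.lt_iff_lt.mpr ht⟩, ?_⟩
  rintro y hy ⟨t', ht'⟩
  have h1 : g ≤ e.symm y := by
    rw [← e.le_iff_le, OrderIso.apply_symm_apply]; exact hy
  have h2 : e.symm y < e.symm t' := e.symm.lt_iff_lt.mpr ht'
  have := h (e.symm y) h1 ⟨_, h2⟩
  rw [← this, OrderIso.apply_symm_apply]

section Facets

variable {V : Type*} [AddCommGroup V] [Module ℝ V] {ι : Type*} [Fintype ι]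

theorem facets (M : Submodule ℝ V) (f : ι → V →ₗ[ℝ] ℝ) (K : Set V)
    (hK : ∀ x, x ∈ K ↔ x ∈ M ∧ ∀ i, 0 ≤ f i x) (w : ι → V) (hw : ∀ i, w i ∈ M)
    (hw0 : ∀ i, f i (w i) = 0) (hwp : ∀ i j, i ≠ j → 0 < f j (w i))
    (h2 : ∀ i : ι, ∃ j, j ≠ i) (hne : Nonempty ι) :
    ∃ F : ι → Face K, Function.Injective F ∧ ∀ G : Face K, MaxProper G ↔ ∃ i, G = F i := by
  classical
  have hwK : ∀ i, w i ∈ K := by
    intro i
    rw [hK]
    refine ⟨hw i, fun j => ?_⟩
    by_cases h : i = j
    · subst h; rw [hw0]
    · exact (hwp i j h).le
  have hKc : Convex ℝ K := by
    intro x hx y hy a b ha hb hab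
    rw [hK] at hx hy ⊢
    refine ⟨M.add_mem (M.smul_mem _ hx.1) (M.smul_mem _ hy.1), fun i => ?_⟩
    rw [map_add, map_smul, map_smul, smul_eq_mul, smul_eq_mul]
    exact add_nonneg (mul_nonneg ha (hx.2 i)) (mul_nonneg hb (hy.2 i))
  -- the whole cone as a face
  let KF : Face K := ⟨K, ⟨w hne.some, hwK _⟩, hKc, IsExtreme.refl ℝ K⟩
  have hproper : ∀ G : Face K, (∃ t, G < t) ↔ G.1 ≠ K := by
    intro G
    constructor
    · rintro ⟨t, ht⟩ hG
      apply lt_irrefl G
      refine lt_of_lt_of_le ht ?_
      change t.1 ⊆ G.1
      rw [hG]; exact t.2.2.2.subset
    · intro hG
      refine ⟨KF, lt_of_le_of_ne ?_ ?_⟩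
      · change G.1 ⊆ K
        exact G.2.2.2.subset
      · intro h
        exact hG (congrArg Subtype.val h)
  -- the facets
  let F0 : ι → Set V := fun i => {x | x ∈ K ∧ f i x = 0}
  have hF0 : ∀ i, (F0 i).Nonempty ∧ Convex ℝ (F0 i) ∧ IsExtreme ℝ K (F0 i) := by
    intro i
    refine ⟨⟨w i, hwK i, hw0 i⟩, ?_, ?_, ?_⟩
    · intro x hx y hy a b ha hb hab
      refine ⟨hKc hx.1 hy.1 ha hb hab, ?_⟩
      rw [map_add, map_smul, map_smul, hx.2, hy.2]; simp
    · exact fun x hx => hx.1
    · intro x hx y hy z hz hzxy
      obtain ⟨a, b, ha, hb, hab, rfl⟩ := hzxy
      refine ⟨hx, ?_⟩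
      have h1 := hz.2
      rw [map_add, map_smul, map_smul, smul_eq_mul, smul_eq_mul] at h1
      have hx' := ((hK x).mp hx).2 i
      have hy' := ((hK y).mp hy).2 i
      have h3 : a * f i x ≤ 0 := by nlinarith [mul_nonneg hb.le hy']
      nlinarith [mul_nonneg ha.le hx']
  let F : ι → Face K := fun i => ⟨F0 i, hF0 i⟩
  have hFne : ∀ i, (F i).1 ≠ K := by
    intro i h
    obtain ⟨j, hj⟩ := h2 i
    have : w j ∈ (F i).1 := by rw [h]; exact hwK j
    exact absurd this.2 (hwp j i hj).ne'
  -- each proper face lies in a facet
  have key : ∀ G : Face K, G.1 ≠ K → ∃ i, G ≤ F i := by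
    intro G hG
    by_contra hcon
    push Not at hcon
    have hx : ∀ i, ∃ x ∈ G.1, 0 < f i x := by
      intro i
      have h1 := hcon i
      have h1' : ¬ (G.1 ⊆ F0 i) := h1
      rw [Set.not_subset] at h1'
      obtain ⟨x, hxG, hxF⟩ := h1'
      have hxK : x ∈ K := G.2.2.2.subset hxG
      refine ⟨x, hxG, lt_of_le_of_ne (((hK x).mp hxK).2 i) ?_⟩
      intro h0
      exact hxF ⟨hxK, h0.symm⟩
    choose x hxG hxp using hx
    apply hG
    apply Set.Subset.antisymm G.2.2.2.subset
    -- an inner point
    have hcard : (0 : ℝ) < Fintype.card ι := by
      exact_mod_cast Fintype.card_pos_iff.mpr hne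
    set z : V := ∑ i, (1 / (Fintype.card ι : ℝ)) • x i with hz
    have hzG : z ∈ G.1 := by
      apply G.2.2.1.sum_mem
      · intro i _; positivity
      · rw [Finset.sum_const, Finset.card_univ, nsmul_eq_mul]; field_simp
      · intro i _; exact hxG i
    have hzK := G.2.2.2.subset hzG
    have hzp : ∀ i, 0 < f i z := by
      intro i
      rw [hz, map_sum]
      apply Finset.sum_pos'
      · intro j _
        rw [map_smul, smul_eq_mul]
        exact mul_nonneg (by positivity) (((hK (x j)).mp (G.2.2.2.subset (hxG j))).2 i)
      · refine ⟨i, Finset.mem_univ _, ?_⟩
        rw [map_smul, smul_eq_mul]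
        exact mul_pos (by positivity) (hxp i)
    intro y hy
    have hyK := (hK y).mp hy
    -- a small step beyond z
    obtain ⟨ε, hε, hεle⟩ : ∃ ε : ℝ, 0 < ε ∧ ∀ i, ε * f i y ≤ f i z := by
      obtain ⟨i0, hi0⟩ := Finite.exists_min (fun i => f i z / (1 + f i y))
      refine ⟨f i0 z / (1 + f i0 y), div_pos (hzp i0) (by linarith [hyK.2 i0]), fun i => ?_⟩
      have h1 := hi0 i
      have hpos : 0 < 1 + f i y := by linarith [hyK.2 i]
      have hpos0 : 0 < f i0 z / (1 + f i0 y) := div_pos (hzp i0) (by linarith [hyK.2 i0])
      rw [le_div_iff₀ hpos] at h1
      nlinarith
    have hz' : z + ε • (z - y) ∈ K := by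
      rw [hK]
      refine ⟨M.add_mem ((hK z).mp hzK).1 (M.smul_mem _ (M.sub_mem ((hK z).mp hzK).1 hyK.1)),
        fun i => ?_⟩
      rw [map_add, map_smul, map_sub, smul_eq_mul]
      nlinarith [hεle i, hzp i]
    refine G.2.2.2.left_mem_of_mem_openSegment hy hz' hzG ?_
    refine ⟨ε / (1 + ε), 1 / (1 + ε), by positivity, by positivity, by field_simp; ring, ?_⟩
    have h1 : (1 + ε) ≠ 0 := by positivity
    rw [← smul_right_inj h1, smul_add, smul_smul, smul_smul]
    have e1 : (1 + ε) * (ε / (1 + ε)) = ε := by field_simp
    have e2 : (1 + ε) * (1 / (1 + ε)) = 1 := by field_simp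
    rw [e1, e2, one_smul, smul_sub, add_smul, one_smul]
    abel
  refine ⟨F, ?_, ?_⟩
  · intro i j hij
    by_contra hne'
    have h1 : w i ∈ (F j).1 := by rw [← hij]; exact ⟨hwK i, hw0 i⟩
    exact absurd h1.2 (hwp i j hne').ne'
  · intro G
    constructor
    · rintro ⟨hG1, hG2⟩
      obtain ⟨i, hi⟩ := key G ((hproper G).mp hG1)
      exact ⟨i, (hG2 (F i) hi ((hproper _).mpr (hFne i))).symm⟩
    · rintro ⟨i, rfl⟩
      refine ⟨(hproper _).mpr (hFne i), ?_⟩
      intro H hH hHt
      obtain ⟨j, hj⟩ := key H ((hproper H).mp hHt)
      have h1 : w i ∈ (F j).1 := hj (hH (show w i ∈ F0 i from ⟨hwK i, hw0 i⟩))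
      have hij : i = j := by
        by_contra hne'
        exact absurd h1.2 (hwp i j hne').ne'
      subst hij
      exact le_antisymm hj hH

end Facets

/-! ### Polygonal measures -/

/-- The determinant with columns `(1, re, im)` of the three points. -/
noncomputable def det3 (a b c : ℂ) : ℝ :=
  Matrix.det !![1, 1, 1; a.re, b.re, c.re; a.im, b.im, c.im]

/-- The chirotope: the sign of this determinant. -/
noncomputable def chirotope (a b c : ℂ) : SignType := SignType.sign (det3 a b c)

/-- The closed triangle with vertices `a, b, c`. -/
def triangle (a b c : ℂ) : Set ℂ := convexHull ℝ {a, b, c}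

/-- The standard measure `χ_Δ dx dy` of the triangle, as a signed measure on the plane. -/
noncomputable def triMeasure (a b c : ℂ) : SignedMeasure ℂ :=
  (volume : Measure ℂ).withDensityᵥ ((triangle a b c).indicator fun _ => (1 : ℝ))

/-- The real span of the standard measures of the (nondegenerate) triangles with vertices
in `S`. -/
noncomputable def polyMeasures (S : Set ℂ) : Submodule ℝ (SignedMeasure ℂ) :=
  Submodule.span ℝ {μ | ∃ a ∈ S, ∃ b ∈ S, ∃ c ∈ S, det3 a b c ≠ 0 ∧ μ = triMeasure a b c}

/-- The cone of the nonnegative measures in this span. -/
def Kpos (S : Set ℂ) : Set (SignedMeasure ℂ) := {μ | μ ∈ polyMeasures S ∧ 0 ≤ μ}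

/-- A finite set which contains three non-collinear points. -/
def IsFiniteSpanning (S : Set ℂ) : Prop :=
  S.Finite ∧ ∃ a ∈ S, ∃ b ∈ S, ∃ c ∈ S, det3 a b c ≠ 0

/-- No three distinct points of `S` lie on a line. -/
def NoThreeCollinear (S : Set ℂ) : Prop :=
  ∀ a ∈ S, ∀ b ∈ S, ∀ c ∈ S, a ≠ b → b ≠ c → a ≠ c → det3 a b c ≠ 0

/-- There is a bijection which preserves the chirotope. -/
def SameOrientedMatroid (S S' : Set ℂ) : Prop :=
  ∃ φ : S ≃ S', ∀ a b c : S, chirotope (φ a) (φ b) (φ c) = chirotope a b c

theorem det3_eq (a b c : ℂ) :
    det3 a b c = (b.re - a.re) * (c.im - a.im) - (b.im - a.im) * (c.re - a.re) := by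
  simp [det3, Matrix.det_fin_three]; ring

theorem halfplane_convex (a b : ℂ) : Convex ℝ {x : ℂ | 0 ≤ det3 a b x} := by
  intro x hx y hy s t hs ht hst
  simp only [mem_ofPred_eq, det3_eq] at hx hy ⊢
  have e1 : (s • x + t • y).re = s * x.re + t * y.re := by simp
  have e2 : (s • x + t • y).im = s * x.im + t * y.im := by simp
  rw [e1, e2]
  have hs' : s = 1 - t := by linarith
  subst hs'
  nlinarith [mul_nonneg hs hx, mul_nonneg ht hy]

theorem mem_triangle {a b c x : ℂ} (h : 0 < det3 a b c) :
    x ∈ triangle a b c ↔ 0 ≤ det3 a b x ∧ 0 ≤ det3 b c x ∧ 0 ≤ det3 c a x := by
  constructor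
  · intro hx
    have key : ∀ p q : ℂ, (0 ≤ det3 p q a) → (0 ≤ det3 p q b) → (0 ≤ det3 p q c) →
        0 ≤ det3 p q x := by
      intro p q h1 h2 h3
      have : triangle a b c ⊆ {x : ℂ | 0 ≤ det3 p q x} := by
        apply convexHull_min _ (halfplane_convex p q)
        rintro y (rfl | rfl | rfl)
        · exact h1
        · exact h2
        · exact h3
      exact this hx
    have h' := h
    rw [det3_eq] at h'
    refine ⟨key a b ?_ ?_ ?_, key b c ?_ ?_ ?_, key c a ?_ ?_ ?_⟩ <;> rw [det3_eq] <;> nlinarith
  · rintro ⟨h1, h2, h3⟩
    set o := det3 a b c with ho
    have hsum : det3 b c x + det3 c a x + det3 a b x = o := by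
      rw [ho]; simp only [det3_eq]; ring
    have hx : x = (det3 b c x / o) • a + (det3 c a x / o) • b + (det3 a b x / o) • c := by
      have hne : o ≠ 0 := h.ne'
      apply Complex.ext
      · simp only [Complex.add_re, Complex.real_smul, Complex.mul_re, Complex.ofReal_re,
          Complex.ofReal_im, zero_mul, sub_zero]
        field_simp
        rw [ho]; simp only [det3_eq]; ring
      · simp only [Complex.add_im, Complex.real_smul, Complex.mul_im, Complex.ofReal_re,
          Complex.ofReal_im, zero_mul, add_zero]
        field_simp
        rw [ho]; simp only [det3_eq]; ring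
    have hc := convex_convexHull ℝ ({a, b, c} : Set ℂ)
    have ha : a ∈ convexHull ℝ ({a, b, c} : Set ℂ) := subset_convexHull _ _ (by simp)
    have hb : b ∈ convexHull ℝ ({a, b, c} : Set ℂ) := subset_convexHull _ _ (by simp)
    have hcc : c ∈ convexHull ℝ ({a, b, c} : Set ℂ) := subset_convexHull _ _ (by simp)
    have := hc.sum_mem (t := Finset.univ) (w := ![det3 b c x / o, det3 c a x / o, det3 a b x / o])
      (z := ![a, b, c]) (by
        intro i _
        fin_cases i
        · exact div_nonneg h2 h.le
        · exact div_nonneg h3 h.le
        · exact div_nonneg h1 h.le) (by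
        simp only [Fin.sum_univ_three]
        simp only [Matrix.cons_val_zero, Matrix.cons_val_one, Matrix.cons_val]
        rw [← add_div, ← add_div, hsum, div_self h.ne']) (by
        intro i _
        fin_cases i
        · exact ha
        · exact hb
        · exact hcc)
    simp only [Fin.sum_univ_three] at this
    simp only [Matrix.cons_val_zero, Matrix.cons_val_one, Matrix.cons_val] at this
    rw [← hx] at this
    exact this

theorem isCompact_triangle (a b c : ℂ) : IsCompact (triangle a b c) :=
  Set.Finite.isCompact_convexHull ℝ (Set.toFinite {a, b, c})

theorem triangle_perm1 (a b c : ℂ) : triangle b c a = triangle a b c := by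
  unfold triangle; congr 1; ext x; simp only [mem_insert_iff, mem_singleton_iff]; tauto

theorem triangle_swap (a b c : ℂ) : triangle a c b = triangle a b c := by
  unfold triangle; congr 1; ext x; simp only [mem_insert_iff, mem_singleton_iff]; tauto

/-- A line is a null set. -/
theorem null_line {p q : ℂ} (h : p ≠ q) : (volume : Measure ℂ) {x : ℂ | det3 p q x = 0} = 0 := by
  let s : AffineSubspace ℝ ℂ :=
    { carrier := {x : ℂ | det3 p q x = 0}
      smul_vsub_vadd_mem' := by
        intro c x y z hx hy hz
        simp only [mem_ofPred_eq, det3_eq, vsub_eq_sub, vadd_eq_add, Complex.add_re, Complex.add_im,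
          Complex.real_smul, Complex.mul_re, Complex.mul_im, Complex.ofReal_re, Complex.ofReal_im,
          Complex.sub_re, Complex.sub_im, zero_mul, sub_zero, add_zero] at hx hy hz ⊢
        linear_combination c * hx - c * hy + hz }
  have hs : s ≠ ⊤ := by
    intro htop
    have : (⟨p.re - (q.im - p.im), p.im + (q.re - p.re)⟩ : ℂ) ∈ s := by
      rw [htop]; trivial
    have h1 : det3 p q ⟨p.re - (q.im - p.im), p.im + (q.re - p.re)⟩ = 0 := this
    rw [det3_eq] at h1
    simp only at h1
    have h2 : q.re - p.re = 0 := by nlinarith [sq_nonneg (q.re - p.re), sq_nonneg (q.im - p.im)]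
    have h3 : q.im - p.im = 0 := by nlinarith [sq_nonneg (q.re - p.re), sq_nonneg (q.im - p.im)]
    apply h
    apply Complex.ext <;> linarith
  exact Measure.addHaar_affineSubspace volume s hs

/-! ### Configurations of six lattice points -/

/-- The determinant for lattice points. -/
def oz (p q r : ℤ × ℤ) : ℤ := (q.1 - p.1) * (r.2 - p.2) - (q.2 - p.2) * (r.1 - p.1)

/-- A lattice point as a point of the plane. -/
noncomputable def pt (p : ℤ × ℤ) : ℂ := ⟨p.1, p.2⟩

theorem det3_pt (p q r : ℤ × ℤ) : det3 (pt p) (pt q) (pt r) = (oz p q r : ℝ) := by
  simp [det3_eq, pt, oz]

theorem det3_swap (a b c : ℂ) : det3 b a c = - det3 a b c := by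
  simp only [det3_eq]; ring

theorem oz_swap (a b c : ℤ × ℤ) : oz b a c = - oz a b c := by
  simp only [oz]; ring

theorem det3_swap' (a b c : ℂ) : det3 a c b = - det3 a b c := by
  simp only [det3_eq]; ring

/-- The open cell of the points which lie on the same side as `r` of each line through two of the
points `P i`. -/
def cell (P : Fin 6 → ℤ × ℤ) (r : ℤ × ℤ) : Set ℂ :=
  {x | ∀ i j : Fin 6, i < j → 0 < det3 (pt (P i)) (pt (P j)) x * (oz (P i) (P j) r : ℝ)}

theorem continuous_det3 (a b : ℂ) : Continuous fun x : ℂ => det3 a b x := by
  simp only [det3_eq]
  fun_prop

theorem isOpen_cell (P : Fin 6 → ℤ × ℤ) (r : ℤ × ℤ) : IsOpen (cell P r) := by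
  have : cell P r = ⋂ i : Fin 6, ⋂ j : Fin 6, ⋂ _ : i < j,
      {x | 0 < det3 (pt (P i)) (pt (P j)) x * (oz (P i) (P j) r : ℝ)} := by
    ext x; simp [cell]
  rw [this]
  refine isOpen_iInter_of_finite fun i => isOpen_iInter_of_finite fun j =>
    isOpen_iInter_of_finite fun _ => ?_
  exact isOpen_lt continuous_const ((continuous_det3 _ _).mul continuous_const)

theorem cell_sign {P : Fin 6 → ℤ × ℤ} {r : ℤ × ℤ} {x : ℂ} (hx : x ∈ cell P r) {i j : Fin 6}
    (h : i ≠ j) : 0 < det3 (pt (P i)) (pt (P j)) x * (oz (P i) (P j) r : ℝ) := by
  rcases lt_or_gt_of_ne h with h | h
  · exact hx i j h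
  · have := hx j i h
    rw [det3_swap, oz_swap] at this
    push_cast at this
    linarith

theorem cell_nonneg {P : Fin 6 → ℤ × ℤ} {r : ℤ × ℤ} {x : ℂ} (hx : x ∈ cell P r) {i j : Fin 6}
    (h : i ≠ j) : 0 ≤ det3 (pt (P i)) (pt (P j)) x ↔ 0 ≤ oz (P i) (P j) r := by
  have h1 := cell_sign hx h
  rcases pos_and_pos_or_neg_and_neg_of_mul_pos h1 with ⟨h2, h3⟩ | ⟨h2, h3⟩
  · exact ⟨fun _ => by exact_mod_cast h3.le, fun _ => h2.le⟩
  · constructor
    · intro h4; linarith
    · intro h4
      have : (0 : ℝ) ≤ (oz (P i) (P j) r : ℝ) := by exact_mod_cast h4
      linarith

/-- Whether the triangle `P i, P j, P k` contains the lattice point `r`. -/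
def inside (P : Fin 6 → ℤ × ℤ) (t : Fin 6 × Fin 6 × Fin 6) (r : ℤ × ℤ) : ℤ :=
  if 0 ≤ oz (P t.1) (P t.2.1) r ∧ 0 ≤ oz (P t.2.1) (P t.2.2) r ∧ 0 ≤ oz (P t.2.2) (P t.1) r
  then 1 else 0

theorem triangle_cell {P : Fin 6 → ℤ × ℤ} {r : ℤ × ℤ} {x : ℂ} (hx : x ∈ cell P r)
    {t : Fin 6 × Fin 6 × Fin 6} (h : 0 < oz (P t.1) (P t.2.1) (P t.2.2)) :
    (triangle (pt (P t.1)) (pt (P t.2.1)) (pt (P t.2.2))).indicator (fun _ => (1 : ℝ)) x =
      (inside P t r : ℝ) := by
  obtain ⟨i, j, k⟩ := t
  simp only at h ⊢
  have hij : i ≠ j := by rintro rfl; simp [oz] at h
  have hjk : j ≠ k := by rintro rfl; simp [oz] at h; linarith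
  have hki : k ≠ i := by rintro rfl; simp [oz] at h
  have hd : 0 < det3 (pt (P i)) (pt (P j)) (pt (P k)) := by rw [det3_pt]; exact_mod_cast h
  have h1 := mem_triangle (x := x) hd
  rw [cell_nonneg hx hij, cell_nonneg hx hjk, cell_nonneg hx hki] at h1
  by_cases hc : 0 ≤ oz (P i) (P j) r ∧ 0 ≤ oz (P j) (P k) r ∧ 0 ≤ oz (P k) (P i) r
  · rw [Set.indicator_of_mem (h1.mpr hc)]; simp [inside, hc]
  · rw [Set.indicator_of_notMem (fun h2 => hc (h1.mp h2))]; simp [inside, hc]

/-- The decidable data of a configuration, and the fact that the cells cover the polygon. The
pairs `H` are the sides of the convex hull, in counterclockwise order. -/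
structure Config (N : ℕ) where
  P : Fin 6 → ℤ × ℤ
  rep : Fin N → ℤ × ℤ
  hh : ℕ
  H : Fin hh → Fin 6 × Fin 6
  d : ℕ
  T : Fin d → Fin 6 × Fin 6 × Fin 6
  L : Fin N → Fin d → ℤ
  hP : ∀ i j, i < j → P i ≠ P j
  hH : ∀ s, (H s).1 ≠ (H s).2
  hhull : ∀ s k, 0 ≤ oz (P (H s).1) (P (H s).2) (P k)
  hrep : ∀ m, ∀ i j, i < j → oz (P i) (P j) (rep m) ≠ 0
  hrep2 : ∀ m s, 0 < oz (P (H s).1) (P (H s).2) (rep m)
  hdisj : ∀ m m', m ≠ m' → ∃ i j, i < j ∧
    oz (P i) (P j) (rep m) * oz (P i) (P j) (rep m') < 0
  hcov : ∀ x : ℂ, (∀ i j, i < j → det3 (pt (P i)) (pt (P j)) x ≠ 0) →
    (∀ s, 0 < det3 (pt (P (H s).1)) (pt (P (H s).2)) x) → ∃ m, x ∈ cell P (rep m)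
  hT : ∀ t, 0 < oz (P (T t).1) (P (T t).2.1) (P (T t).2.2)
  hT1 : ∀ m, ∃ t, inside P (T t) (rep m) = 1
  hL0 : ∀ m, ∑ t, L m t * inside P (T t) (rep m) = 0
  hL1 : ∀ m m', m ≠ m' → 0 < ∑ t, L m t * inside P (T t) (rep m')
  hN : ∀ m : Fin N, ∃ m', m' ≠ m
  hN' : Nonempty (Fin N)

namespace Config

variable {N : ℕ} (C : Config N)

/-- The chambers. -/
def ch (m : Fin N) : Set ℂ := cell C.P (C.rep m)

theorem ch_open (m : Fin N) : IsOpen (C.ch m) := isOpen_cell _ _

theorem ch_meas (m : Fin N) : MeasurableSet (C.ch m) := (C.ch_open m).measurableSet

theorem rep_mem (m : Fin N) : pt (C.rep m) ∈ C.ch m := by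
  intro i j hij
  rw [det3_pt]
  have := C.hrep m i j hij
  have h : (oz (C.P i) (C.P j) (C.rep m) : ℝ) ≠ 0 := by exact_mod_cast this
  exact mul_self_pos.mpr h

theorem ch_pos (m : Fin N) : 0 < volume (C.ch m) :=
  (C.ch_open m).measure_pos volume ⟨_, C.rep_mem m⟩

theorem ch_hull (m : Fin N) {x : ℂ} (hx : x ∈ C.ch m) (s : Fin C.hh) :
    0 < det3 (pt (C.P (C.H s).1)) (pt (C.P (C.H s).2)) x := by
  have h1 : (0 : ℝ) < (oz (C.P (C.H s).1) (C.P (C.H s).2) (C.rep m) : ℝ) := by
    exact_mod_cast C.hrep2 m s
  have h2 := cell_sign hx (C.hH s)
  rcases pos_and_pos_or_neg_and_neg_of_mul_pos h2 with ⟨h3, _⟩ | ⟨_, h3⟩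
  · exact h3
  · linarith

theorem ch_subset (m : Fin N) :
    ∃ a b c : ℂ, C.ch m ⊆ triangle a b c := by
  obtain ⟨t, ht⟩ := C.hT1 m
  refine ⟨pt (C.P (C.T t).1), pt (C.P (C.T t).2.1), pt (C.P (C.T t).2.2), fun x hx => ?_⟩
  have h1 := triangle_cell (show x ∈ cell C.P (C.rep m) from hx) (C.hT t)
  by_contra hcon
  rw [Set.indicator_of_notMem hcon, ht] at h1
  simp at h1

theorem ch_fin (m : Fin N) : volume (C.ch m) ≠ ⊤ := by
  obtain ⟨a, b, c, h⟩ := C.ch_subset m
  exact ((measure_mono h).trans_lt (isCompact_triangle _ _ _).measure_lt_top).ne

theorem ch_disj {m m' : Fin N} (h : m ≠ m') {x : ℂ} (hx : x ∈ C.ch m) : x ∉ C.ch m' := by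
  intro hx'
  obtain ⟨i, j, hij, hneg⟩ := C.hdisj m m' h
  have h1 := hx i j hij
  have h2 := hx' i j hij
  have h3 : (oz (C.P i) (C.P j) (C.rep m) : ℝ) * (oz (C.P i) (C.P j) (C.rep m') : ℝ) < 0 := by
    exact_mod_cast hneg
  have h4 := mul_pos h1 h2
  nlinarith [mul_self_nonneg (det3 (pt (C.P i)) (pt (C.P j)) x)]

/-- The standard measure of a chamber. -/
noncomputable def cm (m : Fin N) : SignedMeasure ℂ :=
  (volume : Measure ℂ).withDensityᵥ ((C.ch m).indicator fun _ => (1 : ℝ))

theorem integrable_ind {A : Set ℂ} (hA : MeasurableSet A) (hf : volume A ≠ ⊤) :
    Integrable (A.indicator fun _ => (1 : ℝ)) (volume : Measure ℂ) :=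
  (integrable_indicator_iff hA).mpr (integrableOn_const hf)

theorem ind_apply {A : Set ℂ} (hA : MeasurableSet A) (hf : volume A ≠ ⊤) {s : Set ℂ}
    (hs : MeasurableSet s) :
    (volume : Measure ℂ).withDensityᵥ (A.indicator fun _ => (1 : ℝ)) s =
      (volume : Measure ℂ).real (s ∩ A) := by
  rw [withDensityᵥ_apply (integrable_ind hA hf) hs, setIntegral_indicator hA]
  simp

/-- Evaluation on a set, a linear functional. -/
noncomputable def ev (s : Set ℂ) : SignedMeasure ℂ →ₗ[ℝ] ℝ where
  toFun μ := μ s
  map_add' μ ν := by simp
  map_smul' c μ := by simp

theorem cm_apply (m : Fin N) {s : Set ℂ} (hs : MeasurableSet s) :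
    C.cm m s = (volume : Measure ℂ).real (s ∩ C.ch m) := ind_apply (C.ch_meas m) (C.ch_fin m) hs

theorem cm_ch (m m' : Fin N) :
    C.cm m (C.ch m') = if m = m' then (volume : Measure ℂ).real (C.ch m) else 0 := by
  rw [cm_apply C m (C.ch_meas m')]
  split_ifs with h
  · subst h; rw [Set.inter_self]
  · have : C.ch m' ∩ C.ch m = ∅ := by
      ext x
      simp only [mem_inter_iff, mem_empty_iff_false, iff_false, not_and]
      exact fun hx => C.ch_disj (Ne.symm h) hx
    rw [this]; simp

theorem ae_eq {t : Fin 6 × Fin 6 × Fin 6} (ht : 0 < oz (C.P t.1) (C.P t.2.1) (C.P t.2.2)) :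
    ∀ᵐ x : ℂ, (triangle (pt (C.P t.1)) (pt (C.P t.2.1)) (pt (C.P t.2.2))).indicator
        (fun _ => (1 : ℝ)) x =
      ∑ m, (inside C.P t (C.rep m) : ℝ) * (C.ch m).indicator (fun _ => (1 : ℝ)) x := by
  have hnull : ∀ i j : Fin 6, i < j → ∀ᵐ x : ℂ, det3 (pt (C.P i)) (pt (C.P j)) x ≠ 0 := by
    intro i j hij
    have hne : pt (C.P i) ≠ pt (C.P j) := by
      intro h
      apply C.hP i j hij
      have h1 := congrArg Complex.re h
      have h2 := congrArg Complex.im h
      simp only [pt] at h1 h2
      exact Prod.ext (by exact_mod_cast h1) (by exact_mod_cast h2)
    have := null_line hne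
    rw [ae_iff]
    simpa using this
  have hall : ∀ᵐ x : ℂ, ∀ i j : Fin 6, i < j → det3 (pt (C.P i)) (pt (C.P j)) x ≠ 0 := by
    rw [ae_all_iff]; intro i
    rw [ae_all_iff]; intro j
    rw [ae_all_iff]; intro h
    exact hnull i j h
  filter_upwards [hall] with x hx
  by_cases hh : ∀ s, 0 < det3 (pt (C.P (C.H s).1)) (pt (C.P (C.H s).2)) x
  · obtain ⟨m, hm⟩ := C.hcov x hx hh
    rw [Finset.sum_eq_single m]
    · rw [triangle_cell hm ht, Set.indicator_of_mem (show x ∈ C.ch m from hm), mul_one]
    · intro m' _ hm'
      rw [Set.indicator_of_notMem (C.ch_disj (Ne.symm hm') hm), mul_zero]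
    · intro h; exact absurd (Finset.mem_univ _) h
  · have h1 : x ∉ triangle (pt (C.P t.1)) (pt (C.P t.2.1)) (pt (C.P t.2.2)) := by
      intro hxt
      apply hh
      intro s
      have hsub : triangle (pt (C.P t.1)) (pt (C.P t.2.1)) (pt (C.P t.2.2)) ⊆
          {x : ℂ | 0 ≤ det3 (pt (C.P (C.H s).1)) (pt (C.P (C.H s).2)) x} := by
        apply convexHull_min _ (halfplane_convex _ _)
        rintro y (rfl | rfl | rfl) <;>
          (rw [mem_ofPred_eq, det3_pt]; exact_mod_cast C.hhull s _)
      refine lt_of_le_of_ne (hsub hxt) ?_
      rcases lt_or_gt_of_ne (C.hH s) with h | h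
      · exact (hx _ _ h).symm
      · intro h0
        apply hx _ _ h
        rw [det3_swap, ← h0, neg_zero]
    rw [Set.indicator_of_notMem h1]
    symm
    apply Finset.sum_eq_zero
    intro m _
    rw [Set.indicator_of_notMem (fun h2 => hh (C.ch_hull m h2)), mul_zero]

theorem tri_eq {t : Fin 6 × Fin 6 × Fin 6} (ht : 0 < oz (C.P t.1) (C.P t.2.1) (C.P t.2.2)) :
    triMeasure (pt (C.P t.1)) (pt (C.P t.2.1)) (pt (C.P t.2.2)) =
      ∑ m, (inside C.P t (C.rep m) : ℝ) • C.cm m := by
  have hTm : MeasurableSet (triangle (pt (C.P t.1)) (pt (C.P t.2.1)) (pt (C.P t.2.2))) :=
    (isCompact_triangle _ _ _).isClosed.measurableSet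
  have hTf : volume (triangle (pt (C.P t.1)) (pt (C.P t.2.1)) (pt (C.P t.2.2))) ≠ ⊤ :=
    (isCompact_triangle _ _ _).measure_lt_top.ne
  apply VectorMeasure.ext
  intro s hs
  have e1 : (∑ m, (inside C.P t (C.rep m) : ℝ) • C.cm m) s =
      ∑ m, (inside C.P t (C.rep m) : ℝ) * C.cm m s := by
    change ev s (∑ m, (inside C.P t (C.rep m) : ℝ) • C.cm m) = _
    rw [map_sum]
    simp [ev]
  rw [e1, triMeasure, withDensityᵥ_apply (integrable_ind hTm hTf) hs]
  have e2 : ∫ x in s, (triangle (pt (C.P t.1)) (pt (C.P t.2.1)) (pt (C.P t.2.2))).indicator
      (fun _ => (1 : ℝ)) x = ∫ x in s, ∑ m, (inside C.P t (C.rep m) : ℝ) *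
        (C.ch m).indicator (fun _ => (1 : ℝ)) x :=
    integral_congr_ae (ae_restrict_of_ae (C.ae_eq ht))
  rw [e2, integral_finsetSum]
  · apply Finset.sum_congr rfl
    intro m _
    rw [integral_const_mul, cm, withDensityᵥ_apply (integrable_ind (C.ch_meas m) (C.ch_fin m)) hs]
  · intro m _
    exact ((integrable_ind (C.ch_meas m) (C.ch_fin m)).integrableOn).const_mul _

/-- The points of the configuration. -/
def S : Set ℂ := Set.range fun i => pt (C.P i)

theorem span_rep {μ : SignedMeasure ℂ} (hμ : μ ∈ polyMeasures C.S) :
    ∃ v : Fin N → ℝ, μ = ∑ m, v m • C.cm m := by
  induction hμ using Submodule.span_induction with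
  | mem μ h =>
    obtain ⟨a, ⟨i, rfl⟩, b, ⟨j, rfl⟩, c, ⟨k, rfl⟩, hne, rfl⟩ := h
    simp only at hne ⊢
    rcases lt_or_gt_of_ne hne with hlt | hgt
    · have h1 : 0 < oz (C.P i) (C.P k) (C.P j) := by
        rw [det3_swap', det3_pt] at hlt
        have : (0 : ℝ) < (oz (C.P i) (C.P k) (C.P j) : ℝ) := by linarith
        exact_mod_cast this
      have h2 := C.tri_eq (t := (i, k, j)) h1
      simp only at h2
      refine ⟨fun m => (inside C.P (i, k, j) (C.rep m) : ℝ), ?_⟩
      rw [← h2]; unfold triMeasure; rw [triangle_swap]
    · have h1 : 0 < oz (C.P i) (C.P j) (C.P k) := by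
        rw [det3_pt] at hgt; exact_mod_cast hgt
      exact ⟨_, C.tri_eq (t := (i, j, k)) h1⟩
  | zero => exact ⟨0, by simp⟩
  | add x y _ _ hx hy =>
    obtain ⟨v, rfl⟩ := hx
    obtain ⟨u, rfl⟩ := hy
    exact ⟨v + u, by simp [add_smul, Finset.sum_add_distrib]⟩
  | smul c x _ hx =>
    obtain ⟨v, rfl⟩ := hx
    exact ⟨fun m => c * v m, by simp [Finset.smul_sum, smul_smul]⟩

theorem ev_sum (v : Fin N → ℝ) (s : Set ℂ) :
    (∑ m, v m • C.cm m) s = ∑ m, v m * C.cm m s := by
  change ev s (∑ m, v m • C.cm m) = _
  rw [map_sum]
  simp [ev]

theorem mem_Kpos (μ : SignedMeasure ℂ) :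
    μ ∈ Kpos C.S ↔ μ ∈ polyMeasures C.S ∧ ∀ m, 0 ≤ ev (C.ch m) μ := by
  constructor
  · rintro ⟨h1, h2⟩
    refine ⟨h1, fun m => ?_⟩
    have := VectorMeasure.le_iff.mp h2 _ (C.ch_meas m)
    change 0 ≤ μ (C.ch m)
    simpa using this
  · rintro ⟨h1, h2⟩
    refine ⟨h1, ?_⟩
    obtain ⟨v, rfl⟩ := C.span_rep h1
    have hv : ∀ m, 0 ≤ v m := by
      intro m
      have h3 := h2 m
      change 0 ≤ (∑ m, v m • C.cm m) (C.ch m) at h3
      rw [ev_sum, Finset.sum_eq_single m] at h3
      · rw [cm_ch, if_pos rfl] at h3
        have hpos : 0 < (volume : Measure ℂ).real (C.ch m) :=
          ENNReal.toReal_pos (C.ch_pos m).ne' (C.ch_fin m)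
        exact nonneg_of_mul_nonneg_left h3 hpos
      · intro m' _ hm'
        rw [cm_ch, if_neg hm', mul_zero]
      · intro h; exact absurd (Finset.mem_univ _) h
    rw [VectorMeasure.le_iff]
    intro s hs
    rw [ev_sum]
    simp only [FunLike.coe_zero, Pi.zero_apply]
    apply Finset.sum_nonneg
    intro m _
    rw [cm_apply C m hs]
    exact mul_nonneg (hv m) measureReal_nonneg

theorem facets_config :
    ∃ F : Fin N → Face (Kpos C.S), Function.Injective F ∧
      ∀ G : Face (Kpos C.S), MaxProper G ↔ ∃ i, G = F i := by
  have hpos : ∀ m, 0 < (volume : Measure ℂ).real (C.ch m) := fun m =>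
    ENNReal.toReal_pos (C.ch_pos m).ne' (C.ch_fin m)
  have hev : ∀ (t : Fin 6 × Fin 6 × Fin 6),
      0 < oz (C.P t.1) (C.P t.2.1) (C.P t.2.2) → ∀ m',
      ev (C.ch m') (triMeasure (pt (C.P t.1)) (pt (C.P t.2.1)) (pt (C.P t.2.2))) =
        (inside C.P t (C.rep m') : ℝ) * (volume : Measure ℂ).real (C.ch m') := by
    intro t ht m'
    rw [C.tri_eq ht]
    change (∑ m, (inside C.P t (C.rep m) : ℝ) • C.cm m) (C.ch m') = _
    rw [ev_sum, Finset.sum_eq_single m']
    · rw [cm_ch, if_pos rfl]
    · intro m _ hm
      rw [cm_ch, if_neg hm, mul_zero]
    · intro h; exact absurd (Finset.mem_univ _) h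
  have hw : ∀ m m', ev (C.ch m') (∑ t, (C.L m t : ℝ) • triMeasure (pt (C.P (C.T t).1))
      (pt (C.P (C.T t).2.1)) (pt (C.P (C.T t).2.2))) =
      ((∑ t, C.L m t * inside C.P (C.T t) (C.rep m') : ℤ) : ℝ) *
        (volume : Measure ℂ).real (C.ch m') := by
    intro m m'
    rw [map_sum, Int.cast_sum, Finset.sum_mul]
    apply Finset.sum_congr rfl
    intro t _
    rw [map_smul, hev _ (C.hT t), smul_eq_mul]
    push_cast
    ring
  refine facets (polyMeasures C.S) (fun m => ev (C.ch m)) (Kpos C.S) C.mem_Kpos
    (fun m => ∑ t, (C.L m t : ℝ) • triMeasure (pt (C.P (C.T t).1))
      (pt (C.P (C.T t).2.1)) (pt (C.P (C.T t).2.2))) ?_ ?_ ?_ C.hN C.hN'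
  · intro m
    apply Submodule.sum_mem
    intro t _
    apply Submodule.smul_mem
    apply Submodule.subset_span
    refine ⟨_, ⟨_, rfl⟩, _, ⟨_, rfl⟩, _, ⟨_, rfl⟩, ?_, rfl⟩
    simp only
    rw [det3_pt]
    exact_mod_cast (C.hT t).ne'
  · intro m
    rw [hw, C.hL0 m]; simp
  · intro m m' hmm
    rw [hw]
    exact mul_pos (by exact_mod_cast C.hL1 m m' hmm) (hpos m')

end Config

theorem mem_cell (P : Fin 6 → ℤ × ℤ) (r : ℤ × ℤ) (x : ℂ)
    (h01 : 0 < det3 (pt (P 0)) (pt (P 1)) x * (oz (P 0) (P 1) r : ℝ))
    (h02 : 0 < det3 (pt (P 0)) (pt (P 2)) x * (oz (P 0) (P 2) r : ℝ))
    (h03 : 0 < det3 (pt (P 0)) (pt (P 3)) x * (oz (P 0) (P 3) r : ℝ))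
    (h04 : 0 < det3 (pt (P 0)) (pt (P 4)) x * (oz (P 0) (P 4) r : ℝ))
    (h05 : 0 < det3 (pt (P 0)) (pt (P 5)) x * (oz (P 0) (P 5) r : ℝ))
    (h12 : 0 < det3 (pt (P 1)) (pt (P 2)) x * (oz (P 1) (P 2) r : ℝ))
    (h13 : 0 < det3 (pt (P 1)) (pt (P 3)) x * (oz (P 1) (P 3) r : ℝ))
    (h14 : 0 < det3 (pt (P 1)) (pt (P 4)) x * (oz (P 1) (P 4) r : ℝ))
    (h15 : 0 < det3 (pt (P 1)) (pt (P 5)) x * (oz (P 1) (P 5) r : ℝ))
    (h23 : 0 < det3 (pt (P 2)) (pt (P 3)) x * (oz (P 2) (P 3) r : ℝ))
    (h24 : 0 < det3 (pt (P 2)) (pt (P 4)) x * (oz (P 2) (P 4) r : ℝ))
    (h25 : 0 < det3 (pt (P 2)) (pt (P 5)) x * (oz (P 2) (P 5) r : ℝ))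
    (h34 : 0 < det3 (pt (P 3)) (pt (P 4)) x * (oz (P 3) (P 4) r : ℝ))
    (h35 : 0 < det3 (pt (P 3)) (pt (P 5)) x * (oz (P 3) (P 5) r : ℝ))
    (h45 : 0 < det3 (pt (P 4)) (pt (P 5)) x * (oz (P 4) (P 5) r : ℝ)) : x ∈ cell P r := by
  intro i j hij
  match i, j, hij with
  | 0, 0, h => exact absurd h (by decide)
  | 0, 1, _ => exact h01
  | 0, 2, _ => exact h02
  | 0, 3, _ => exact h03
  | 0, 4, _ => exact h04
  | 0, 5, _ => exact h05
  | 1, 0, h => exact absurd h (by decide)
  | 1, 1, h => exact absurd h (by decide)
  | 1, 2, _ => exact h12
  | 1, 3, _ => exact h13
  | 1, 4, _ => exact h14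
  | 1, 5, _ => exact h15
  | 2, 0, h => exact absurd h (by decide)
  | 2, 1, h => exact absurd h (by decide)
  | 2, 2, h => exact absurd h (by decide)
  | 2, 3, _ => exact h23
  | 2, 4, _ => exact h24
  | 2, 5, _ => exact h25
  | 3, 0, h => exact absurd h (by decide)
  | 3, 1, h => exact absurd h (by decide)
  | 3, 2, h => exact absurd h (by decide)
  | 3, 3, h => exact absurd h (by decide)
  | 3, 4, _ => exact h34
  | 3, 5, _ => exact h35
  | 4, 0, h => exact absurd h (by decide)
  | 4, 1, h => exact absurd h (by decide)
  | 4, 2, h => exact absurd h (by decide)
  | 4, 3, h => exact absurd h (by decide)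
  | 4, 4, h => exact absurd h (by decide)
  | 4, 5, _ => exact h45
  | 5, 0, h => exact absurd h (by decide)
  | 5, 1, h => exact absurd h (by decide)
  | 5, 2, h => exact absurd h (by decide)
  | 5, 3, h => exact absurd h (by decide)
  | 5, 4, h => exact absurd h (by decide)
  | 5, 5, h => exact absurd h (by decide)

theorem dgen {p q : ℤ × ℤ} {a b c : ℤ} (ha : p.2 - q.2 = a) (hb : q.1 - p.1 = b)
    (hc : p.1 * q.2 - p.2 * q.1 = c) (x : ℂ) :
    det3 (pt p) (pt q) x = (a : ℝ) * x.re + (b : ℝ) * x.im + (c : ℝ) := by
  subst ha hb hc
  rw [det3_eq]
  simp only [pt]
  push_cast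
  ring

theorem mp {a : ℝ} {z : ℤ} (h : 0 < a) (hz : 0 < z) : 0 < a * (z : ℝ) :=
  mul_pos h (by exact_mod_cast hz)

theorem mn {a : ℝ} {z : ℤ} (h : a < 0) (hz : z < 0) : 0 < a * (z : ℝ) :=
  mul_pos_of_neg_of_neg h (by exact_mod_cast hz)

theorem sw {a b x : ℂ} (h : 0 < det3 a b x) : det3 b a x < 0 := by
  rw [det3_swap]; linarith

/-- The sides of the hexagons. -/
def sides : Fin 6 → Fin 6 × Fin 6 := ![(0, 1), (1, 2), (2, 3), (3, 4), (4, 5), (5, 0)]

/-- The triangles at the first vertex; they span the measures. -/
def tri10 : Fin 10 → Fin 6 × Fin 6 × Fin 6 :=
  ![(0, 1, 2), (0, 1, 3), (0, 1, 4), (0, 1, 5), (0, 2, 3),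
    (0, 2, 4), (0, 2, 5), (0, 3, 4), (0, 3, 5), (0, 4, 5)]

/-- The vertices of a hexagon whose long diagonals meet in one point. -/
def PA : Fin 6 → ℤ × ℤ :=
  ![(60, 0), (120, 0), (180, 60), (120, 120), (60, 120), (0, 60)]

/-- A point in each of its 24 chambers. -/
def repA : Fin 24 → ℤ × ℤ :=
  ![(45, 51), (45, 69), (51, 26), (51, 94), (65, 20), (65, 98), (73, 51),
    (73, 69), (75, 15), (75, 105), (90, 10), (90, 30), (90, 90), (90, 110),
    (105, 15), (105, 105), (107, 51), (107, 69), (114, 22), (114, 98), (129, 26),
    (129, 94), (134, 51), (134, 69)]

/-- The coefficients of measures which vanish on one chamber only. -/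
def LA : Fin 24 → Fin 10 → ℤ :=
  ![![1, 0, 0, 1, 1, 1, -1, 1, 0, 1],
    ![1, 0, 0, 0, 1, 0, 1, 2, -1, 1],
    ![1, 0, 1, -1, 1, 0, 0, 1, 0, 1],
    ![1, 0, 0, 0, 1, 0, 0, 1, 1, 0],
    ![1, 1, 0, -1, 1, 0, 0, 1, 0, 2],
    ![1, 1, -1, 0, 1, 0, 0, 1, 1, 1],
    ![1, 1, -1, 1, 1, 1, -1, 1, 0, 2],
    ![1, 1, -1, 0, 1, 0, 1, 2, -1, 2],
    ![2, 0, 0, -1, 1, 0, 0, 1, 1, 1],
    ![1, 0, 1, -1, 2, -1, 0, 1, 1, 1],
    ![1, 0, 0, -1, 1, 0, 1, 1, 0, 1],
    ![2, 0, -1, 1, 1, 0, 0, 2, 0, 1],
    ![1, 0, 1, 0, 2, -1, 0, 2, -1, 2],
    ![1, 0, 0, 0, 1, 1, -1, 0, 1, 1],
    ![1, 0, -1, 1, 1, 0, 1, 2, 0, 1],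
    ![1, 0, 1, 0, 1, 1, -1, 1, -1, 3],
    ![2, -1, 1, 0, 2, 0, -1, 1, 0, 2],
    ![2, -1, 0, 0, 2, -1, 1, 2, 0, 1],
    ![1, -1, 1, 0, 2, 0, 0, 1, 0, 1],
    ![2, -1, 0, 0, 1, 1, 0, 1, 0, 1],
    ![0, 1, 0, 0, 1, 0, 0, 1, 0, 1],
    ![1, 1, -1, 0, 0, 1, 0, 1, 0, 1],
    ![1, 1, 1, 0, 1, 0, -1, 1, 0, 2],
    ![1, 1, 0, -1, 1, -1, 1, 2, 0, 1]]

theorem dA01 (x : ℂ) : det3 (pt (PA 0)) (pt (PA 1)) x =
    0 * x.re + 60 * x.im + 0 := by
  have h := dgen (p := PA 0) (q := PA 1) (a := 0) (b := 60)
    (c := 0) (by decide) (by decide) (by decide) x
  push_cast at h
  linarith

theorem dA02 (x : ℂ) : det3 (pt (PA 0)) (pt (PA 2)) x =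
    (-60) * x.re + 120 * x.im + 3600 := by
  have h := dgen (p := PA 0) (q := PA 2) (a := -60) (b := 120)
    (c := 3600) (by decide) (by decide) (by decide) x
  push_cast at h
  linarith

theorem dA03 (x : ℂ) : det3 (pt (PA 0)) (pt (PA 3)) x =
    (-120) * x.re + 60 * x.im + 7200 := by
  have h := dgen (p := PA 0) (q := PA 3) (a := -120) (b := 60)
    (c := 7200) (by decide) (by decide) (by decide) x
  push_cast at h
  linarith

theorem dA04 (x : ℂ) : det3 (pt (PA 0)) (pt (PA 4)) x =
    (-120) * x.re + 0 * x.im + 7200 := by
  have h := dgen (p := PA 0) (q := PA 4) (a := -120) (b := 0)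
    (c := 7200) (by decide) (by decide) (by decide) x
  push_cast at h
  linarith

theorem dA05 (x : ℂ) : det3 (pt (PA 0)) (pt (PA 5)) x =
    (-60) * x.re + (-60) * x.im + 3600 := by
  have h := dgen (p := PA 0) (q := PA 5) (a := -60) (b := -60)
    (c := 3600) (by decide) (by decide) (by decide) x
  push_cast at h
  linarith

theorem dA12 (x : ℂ) : det3 (pt (PA 1)) (pt (PA 2)) x =
    (-60) * x.re + 60 * x.im + 7200 := by
  have h := dgen (p := PA 1) (q := PA 2) (a := -60) (b := 60)
    (c := 7200) (by decide) (by decide) (by decide) x
  push_cast at h
  linarith

theorem dA13 (x : ℂ) : det3 (pt (PA 1)) (pt (PA 3)) x =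
    (-120) * x.re + 0 * x.im + 14400 := by
  have h := dgen (p := PA 1) (q := PA 3) (a := -120) (b := 0)
    (c := 14400) (by decide) (by decide) (by decide) x
  push_cast at h
  linarith

theorem dA14 (x : ℂ) : det3 (pt (PA 1)) (pt (PA 4)) x =
    (-120) * x.re + (-60) * x.im + 14400 := by
  have h := dgen (p := PA 1) (q := PA 4) (a := -120) (b := -60)
    (c := 14400) (by decide) (by decide) (by decide) x
  push_cast at h
  linarith

theorem dA15 (x : ℂ) : det3 (pt (PA 1)) (pt (PA 5)) x =
    (-60) * x.re + (-120) * x.im + 7200 := by
  have h := dgen (p := PA 1) (q := PA 5) (a := -60) (b := -120)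
    (c := 7200) (by decide) (by decide) (by decide) x
  push_cast at h
  linarith

theorem dA23 (x : ℂ) : det3 (pt (PA 2)) (pt (PA 3)) x =
    (-60) * x.re + (-60) * x.im + 14400 := by
  have h := dgen (p := PA 2) (q := PA 3) (a := -60) (b := -60)
    (c := 14400) (by decide) (by decide) (by decide) x
  push_cast at h
  linarith

theorem dA24 (x : ℂ) : det3 (pt (PA 2)) (pt (PA 4)) x =
    (-60) * x.re + (-120) * x.im + 18000 := by
  have h := dgen (p := PA 2) (q := PA 4) (a := -60) (b := -120)
    (c := 18000) (by decide) (by decide) (by decide) x
  push_cast at h
  linarith

theorem dA25 (x : ℂ) : det3 (pt (PA 2)) (pt (PA 5)) x =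
    0 * x.re + (-180) * x.im + 10800 := by
  have h := dgen (p := PA 2) (q := PA 5) (a := 0) (b := -180)
    (c := 10800) (by decide) (by decide) (by decide) x
  push_cast at h
  linarith

theorem dA34 (x : ℂ) : det3 (pt (PA 3)) (pt (PA 4)) x =
    0 * x.re + (-60) * x.im + 7200 := by
  have h := dgen (p := PA 3) (q := PA 4) (a := 0) (b := -60)
    (c := 7200) (by decide) (by decide) (by decide) x
  push_cast at h
  linarith

theorem dA35 (x : ℂ) : det3 (pt (PA 3)) (pt (PA 5)) x =
    60 * x.re + (-120) * x.im + 7200 := by
  have h := dgen (p := PA 3) (q := PA 5) (a := 60) (b := -120)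
    (c := 7200) (by decide) (by decide) (by decide) x
  push_cast at h
  linarith

theorem dA45 (x : ℂ) : det3 (pt (PA 4)) (pt (PA 5)) x =
    60 * x.re + (-60) * x.im + 3600 := by
  have h := dgen (p := PA 4) (q := PA 5) (a := 60) (b := -60)
    (c := 3600) (by decide) (by decide) (by decide) x
  push_cast at h
  linarith

theorem dA50 (x : ℂ) : det3 (pt (PA 5)) (pt (PA 0)) x =
    60 * x.re + 60 * x.im + (-3600) := by
  have h := dgen (p := PA 5) (q := PA 0) (a := 60) (b := 60)
    (c := -3600) (by decide) (by decide) (by decide) x
  push_cast at h
  linarith

theorem covA (x : ℂ) (hx : ∀ i j : Fin 6, i < j → det3 (pt (PA i)) (pt (PA j)) x ≠ 0)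
    (hs : ∀ s, 0 < det3 (pt (PA (sides s).1)) (pt (PA (sides s).2)) x) :
    ∃ m, x ∈ cell PA (repA m) := by
  have n03 := hx 0 3 (by decide)
  have n14 := hx 1 4 (by decide)
  have n25 := hx 2 5 (by decide)
  have n02 := hx 0 2 (by decide)
  have n13 := hx 1 3 (by decide)
  have n24 := hx 2 4 (by decide)
  have n35 := hx 3 5 (by decide)
  have n04 := hx 0 4 (by decide)
  have n15 := hx 1 5 (by decide)
  have e03 := dA03 x
  have e14 := dA14 x
  have e25 := dA25 x
  have e02 := dA02 x
  have e13 := dA13 x
  have e24 := dA24 x
  have e35 := dA35 x
  have e04 := dA04 x
  have e15 := dA15 x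
  have h0 : 0 < det3 (pt (PA 0)) (pt (PA 1)) x := hs 0
  have f0 := dA01 x
  have h1 : 0 < det3 (pt (PA 1)) (pt (PA 2)) x := hs 1
  have f1 := dA12 x
  have h2 : 0 < det3 (pt (PA 2)) (pt (PA 3)) x := hs 2
  have f2 := dA23 x
  have h3 : 0 < det3 (pt (PA 3)) (pt (PA 4)) x := hs 3
  have f3 := dA34 x
  have h4 : 0 < det3 (pt (PA 4)) (pt (PA 5)) x := hs 4
  have f4 := dA45 x
  have h5 : 0 < det3 (pt (PA 5)) (pt (PA 0)) x := hs 5
  have f5 := dA50 x
  rcases lt_or_gt_of_ne n03 with s03 | s03
  · rcases lt_or_gt_of_ne n14 with s14 | s14
    · rcases lt_or_gt_of_ne n25 with s25 | s25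
      · rcases lt_or_gt_of_ne n02 with s02 | s02
        · exfalso; linarith
        · rcases lt_or_gt_of_ne n13 with s13 | s13
          · rcases lt_or_gt_of_ne n24 with s24 | s24
            · rcases lt_or_gt_of_ne n35 with s35 | s35
              · exfalso; linarith
              · rcases lt_or_gt_of_ne n04 with s04 | s04
                · rcases lt_or_gt_of_ne n15 with s15 | s15
                  · refine ⟨21, mem_cell _ _ _ ?_ ?_ ?_ ?_ ?_ ?_ ?_ ?_ ?_ ?_ ?_ ?_ ?_ ?_ ?_⟩
                    · exact mp h0 (by decide)
                    · exact mp s02 (by decide)
                    · exact mn s03 (by decide)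
                    · exact mn s04 (by decide)
                    · exact mn (sw h5) (by decide)
                    · exact mp h1 (by decide)
                    · exact mn s13 (by decide)
                    · exact mn s14 (by decide)
                    · exact mn s15 (by decide)
                    · exact mp h2 (by decide)
                    · exact mn s24 (by decide)
                    · exact mn s25 (by decide)
                    · exact mp h3 (by decide)
                    · exact mp s35 (by decide)
                    · exact mp h4 (by decide)
                  · exfalso; linarith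
                · exfalso; linarith
            · rcases lt_or_gt_of_ne n35 with s35 | s35
              · exfalso; linarith
              · rcases lt_or_gt_of_ne n04 with s04 | s04
                · rcases lt_or_gt_of_ne n15 with s15 | s15
                  · refine ⟨23, mem_cell _ _ _ ?_ ?_ ?_ ?_ ?_ ?_ ?_ ?_ ?_ ?_ ?_ ?_ ?_ ?_ ?_⟩
                    · exact mp h0 (by decide)
                    · exact mp s02 (by decide)
                    · exact mn s03 (by decide)
                    · exact mn s04 (by decide)
                    · exact mn (sw h5) (by decide)
                    · exact mp h1 (by decide)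
                    · exact mn s13 (by decide)
                    · exact mn s14 (by decide)
                    · exact mn s15 (by decide)
                    · exact mp h2 (by decide)
                    · exact mp s24 (by decide)
                    · exact mn s25 (by decide)
                    · exact mp h3 (by decide)
                    · exact mp s35 (by decide)
                    · exact mp h4 (by decide)
                  · exfalso; linarith
                · exfalso; linarith
          · rcases lt_or_gt_of_ne n24 with s24 | s24
            · rcases lt_or_gt_of_ne n35 with s35 | s35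
              · exfalso; linarith
              · rcases lt_or_gt_of_ne n04 with s04 | s04
                · rcases lt_or_gt_of_ne n15 with s15 | s15
                  · refine ⟨19, mem_cell _ _ _ ?_ ?_ ?_ ?_ ?_ ?_ ?_ ?_ ?_ ?_ ?_ ?_ ?_ ?_ ?_⟩
                    · exact mp h0 (by decide)
                    · exact mp s02 (by decide)
                    · exact mn s03 (by decide)
                    · exact mn s04 (by decide)
                    · exact mn (sw h5) (by decide)
                    · exact mp h1 (by decide)
                    · exact mp s13 (by decide)
                    · exact mn s14 (by decide)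
                    · exact mn s15 (by decide)
                    · exact mp h2 (by decide)
                    · exact mn s24 (by decide)
                    · exact mn s25 (by decide)
                    · exact mp h3 (by decide)
                    · exact mp s35 (by decide)
                    · exact mp h4 (by decide)
                  · exfalso; linarith
                · exfalso; linarith
            · rcases lt_or_gt_of_ne n35 with s35 | s35
              · exfalso; linarith
              · rcases lt_or_gt_of_ne n04 with s04 | s04
                · rcases lt_or_gt_of_ne n15 with s15 | s15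
                  · refine ⟨17, mem_cell _ _ _ ?_ ?_ ?_ ?_ ?_ ?_ ?_ ?_ ?_ ?_ ?_ ?_ ?_ ?_ ?_⟩
                    · exact mp h0 (by decide)
                    · exact mp s02 (by decide)
                    · exact mn s03 (by decide)
                    · exact mn s04 (by decide)
                    · exact mn (sw h5) (by decide)
                    · exact mp h1 (by decide)
                    · exact mp s13 (by decide)
                    · exact mn s14 (by decide)
                    · exact mn s15 (by decide)
                    · exact mp h2 (by decide)
                    · exact mp s24 (by decide)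
                    · exact mn s25 (by decide)
                    · exact mp h3 (by decide)
                    · exact mp s35 (by decide)
                    · exact mp h4 (by decide)
                  · exfalso; linarith
                · exfalso; linarith
      · rcases lt_or_gt_of_ne n02 with s02 | s02
        · rcases lt_or_gt_of_ne n13 with s13 | s13
          · rcases lt_or_gt_of_ne n24 with s24 | s24
            · exfalso; linarith
            · rcases lt_or_gt_of_ne n35 with s35 | s35
              · exfalso; linarith
              · rcases lt_or_gt_of_ne n04 with s04 | s04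
                · rcases lt_or_gt_of_ne n15 with s15 | s15
                  · refine ⟨20, mem_cell _ _ _ ?_ ?_ ?_ ?_ ?_ ?_ ?_ ?_ ?_ ?_ ?_ ?_ ?_ ?_ ?_⟩
                    · exact mp h0 (by decide)
                    · exact mn s02 (by decide)
                    · exact mn s03 (by decide)
                    · exact mn s04 (by decide)
                    · exact mn (sw h5) (by decide)
                    · exact mp h1 (by decide)
                    · exact mn s13 (by decide)
                    · exact mn s14 (by decide)
                    · exact mn s15 (by decide)
                    · exact mp h2 (by decide)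
                    · exact mp s24 (by decide)
                    · exact mp s25 (by decide)
                    · exact mp h3 (by decide)
                    · exact mp s35 (by decide)
                    · exact mp h4 (by decide)
                  · exfalso; linarith
                · exfalso; linarith
          · rcases lt_or_gt_of_ne n24 with s24 | s24
            · exfalso; linarith
            · rcases lt_or_gt_of_ne n35 with s35 | s35
              · exfalso; linarith
              · rcases lt_or_gt_of_ne n04 with s04 | s04
                · rcases lt_or_gt_of_ne n15 with s15 | s15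
                  · refine ⟨18, mem_cell _ _ _ ?_ ?_ ?_ ?_ ?_ ?_ ?_ ?_ ?_ ?_ ?_ ?_ ?_ ?_ ?_⟩
                    · exact mp h0 (by decide)
                    · exact mn s02 (by decide)
                    · exact mn s03 (by decide)
                    · exact mn s04 (by decide)
                    · exact mn (sw h5) (by decide)
                    · exact mp h1 (by decide)
                    · exact mp s13 (by decide)
                    · exact mn s14 (by decide)
                    · exact mn s15 (by decide)
                    · exact mp h2 (by decide)
                    · exact mp s24 (by decide)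
                    · exact mp s25 (by decide)
                    · exact mp h3 (by decide)
                    · exact mp s35 (by decide)
                    · exact mp h4 (by decide)
                  · exfalso; linarith
                · exfalso; linarith
        · rcases lt_or_gt_of_ne n13 with s13 | s13
          · rcases lt_or_gt_of_ne n24 with s24 | s24
            · exfalso; linarith
            · rcases lt_or_gt_of_ne n35 with s35 | s35
              · exfalso; linarith
              · rcases lt_or_gt_of_ne n04 with s04 | s04
                · rcases lt_or_gt_of_ne n15 with s15 | s15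
                  · refine ⟨22, mem_cell _ _ _ ?_ ?_ ?_ ?_ ?_ ?_ ?_ ?_ ?_ ?_ ?_ ?_ ?_ ?_ ?_⟩
                    · exact mp h0 (by decide)
                    · exact mp s02 (by decide)
                    · exact mn s03 (by decide)
                    · exact mn s04 (by decide)
                    · exact mn (sw h5) (by decide)
                    · exact mp h1 (by decide)
                    · exact mn s13 (by decide)
                    · exact mn s14 (by decide)
                    · exact mn s15 (by decide)
                    · exact mp h2 (by decide)
                    · exact mp s24 (by decide)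
                    · exact mp s25 (by decide)
                    · exact mp h3 (by decide)
                    · exact mp s35 (by decide)
                    · exact mp h4 (by decide)
                  · exfalso; linarith
                · exfalso; linarith
          · rcases lt_or_gt_of_ne n24 with s24 | s24
            · exfalso; linarith
            · rcases lt_or_gt_of_ne n35 with s35 | s35
              · exfalso; linarith
              · rcases lt_or_gt_of_ne n04 with s04 | s04
                · rcases lt_or_gt_of_ne n15 with s15 | s15
                  · refine ⟨16, mem_cell _ _ _ ?_ ?_ ?_ ?_ ?_ ?_ ?_ ?_ ?_ ?_ ?_ ?_ ?_ ?_ ?_⟩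
                    · exact mp h0 (by decide)
                    · exact mp s02 (by decide)
                    · exact mn s03 (by decide)
                    · exact mn s04 (by decide)
                    · exact mn (sw h5) (by decide)
                    · exact mp h1 (by decide)
                    · exact mp s13 (by decide)
                    · exact mn s14 (by decide)
                    · exact mn s15 (by decide)
                    · exact mp h2 (by decide)
                    · exact mp s24 (by decide)
                    · exact mp s25 (by decide)
                    · exact mp h3 (by decide)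
                    · exact mp s35 (by decide)
                    · exact mp h4 (by decide)
                  · exfalso; linarith
                · exfalso; linarith
    · rcases lt_or_gt_of_ne n25 with s25 | s25
      · exfalso; linarith
      · rcases lt_or_gt_of_ne n02 with s02 | s02
        · rcases lt_or_gt_of_ne n13 with s13 | s13
          · exfalso; linarith
          · rcases lt_or_gt_of_ne n24 with s24 | s24
            · exfalso; linarith
            · rcases lt_or_gt_of_ne n35 with s35 | s35
              · exfalso; linarith
              · rcases lt_or_gt_of_ne n04 with s04 | s04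
                · rcases lt_or_gt_of_ne n15 with s15 | s15
                  · refine ⟨14, mem_cell _ _ _ ?_ ?_ ?_ ?_ ?_ ?_ ?_ ?_ ?_ ?_ ?_ ?_ ?_ ?_ ?_⟩
                    · exact mp h0 (by decide)
                    · exact mn s02 (by decide)
                    · exact mn s03 (by decide)
                    · exact mn s04 (by decide)
                    · exact mn (sw h5) (by decide)
                    · exact mp h1 (by decide)
                    · exact mp s13 (by decide)
                    · exact mp s14 (by decide)
                    · exact mn s15 (by decide)
                    · exact mp h2 (by decide)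
                    · exact mp s24 (by decide)
                    · exact mp s25 (by decide)
                    · exact mp h3 (by decide)
                    · exact mp s35 (by decide)
                    · exact mp h4 (by decide)
                  · refine ⟨10, mem_cell _ _ _ ?_ ?_ ?_ ?_ ?_ ?_ ?_ ?_ ?_ ?_ ?_ ?_ ?_ ?_ ?_⟩
                    · exact mp h0 (by decide)
                    · exact mn s02 (by decide)
                    · exact mn s03 (by decide)
                    · exact mn s04 (by decide)
                    · exact mn (sw h5) (by decide)
                    · exact mp h1 (by decide)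
                    · exact mp s13 (by decide)
                    · exact mp s14 (by decide)
                    · exact mp s15 (by decide)
                    · exact mp h2 (by decide)
                    · exact mp s24 (by decide)
                    · exact mp s25 (by decide)
                    · exact mp h3 (by decide)
                    · exact mp s35 (by decide)
                    · exact mp h4 (by decide)
                · exfalso; linarith
        · rcases lt_or_gt_of_ne n13 with s13 | s13
          · exfalso; linarith
          · rcases lt_or_gt_of_ne n24 with s24 | s24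
            · exfalso; linarith
            · rcases lt_or_gt_of_ne n35 with s35 | s35
              · exfalso; linarith
              · rcases lt_or_gt_of_ne n04 with s04 | s04
                · rcases lt_or_gt_of_ne n15 with s15 | s15
                  · refine ⟨11, mem_cell _ _ _ ?_ ?_ ?_ ?_ ?_ ?_ ?_ ?_ ?_ ?_ ?_ ?_ ?_ ?_ ?_⟩
                    · exact mp h0 (by decide)
                    · exact mp s02 (by decide)
                    · exact mn s03 (by decide)
                    · exact mn s04 (by decide)
                    · exact mn (sw h5) (by decide)
                    · exact mp h1 (by decide)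
                    · exact mp s13 (by decide)
                    · exact mp s14 (by decide)
                    · exact mn s15 (by decide)
                    · exact mp h2 (by decide)
                    · exact mp s24 (by decide)
                    · exact mp s25 (by decide)
                    · exact mp h3 (by decide)
                    · exact mp s35 (by decide)
                    · exact mp h4 (by decide)
                  · refine ⟨8, mem_cell _ _ _ ?_ ?_ ?_ ?_ ?_ ?_ ?_ ?_ ?_ ?_ ?_ ?_ ?_ ?_ ?_⟩
                    · exact mp h0 (by decide)
                    · exact mp s02 (by decide)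
                    · exact mn s03 (by decide)
                    · exact mn s04 (by decide)
                    · exact mn (sw h5) (by decide)
                    · exact mp h1 (by decide)
                    · exact mp s13 (by decide)
                    · exact mp s14 (by decide)
                    · exact mp s15 (by decide)
                    · exact mp h2 (by decide)
                    · exact mp s24 (by decide)
                    · exact mp s25 (by decide)
                    · exact mp h3 (by decide)
                    · exact mp s35 (by decide)
                    · exact mp h4 (by decide)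
                · exfalso; linarith
  · rcases lt_or_gt_of_ne n14 with s14 | s14
    · rcases lt_or_gt_of_ne n25 with s25 | s25
      · rcases lt_or_gt_of_ne n02 with s02 | s02
        · exfalso; linarith
        · rcases lt_or_gt_of_ne n13 with s13 | s13
          · exfalso; linarith
          · rcases lt_or_gt_of_ne n24 with s24 | s24
            · rcases lt_or_gt_of_ne n35 with s35 | s35
              · rcases lt_or_gt_of_ne n04 with s04 | s04
                · rcases lt_or_gt_of_ne n15 with s15 | s15
                  · refine ⟨13, mem_cell _ _ _ ?_ ?_ ?_ ?_ ?_ ?_ ?_ ?_ ?_ ?_ ?_ ?_ ?_ ?_ ?_⟩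
                    · exact mp h0 (by decide)
                    · exact mp s02 (by decide)
                    · exact mp s03 (by decide)
                    · exact mn s04 (by decide)
                    · exact mn (sw h5) (by decide)
                    · exact mp h1 (by decide)
                    · exact mp s13 (by decide)
                    · exact mn s14 (by decide)
                    · exact mn s15 (by decide)
                    · exact mp h2 (by decide)
                    · exact mn s24 (by decide)
                    · exact mn s25 (by decide)
                    · exact mp h3 (by decide)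
                    · exact mn s35 (by decide)
                    · exact mp h4 (by decide)
                  · exfalso; linarith
                · exfalso; linarith
              · rcases lt_or_gt_of_ne n04 with s04 | s04
                · rcases lt_or_gt_of_ne n15 with s15 | s15
                  · refine ⟨15, mem_cell _ _ _ ?_ ?_ ?_ ?_ ?_ ?_ ?_ ?_ ?_ ?_ ?_ ?_ ?_ ?_ ?_⟩
                    · exact mp h0 (by decide)
                    · exact mp s02 (by decide)
                    · exact mp s03 (by decide)
                    · exact mn s04 (by decide)
                    · exact mn (sw h5) (by decide)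
                    · exact mp h1 (by decide)
                    · exact mp s13 (by decide)
                    · exact mn s14 (by decide)
                    · exact mn s15 (by decide)
                    · exact mp h2 (by decide)
                    · exact mn s24 (by decide)
                    · exact mn s25 (by decide)
                    · exact mp h3 (by decide)
                    · exact mp s35 (by decide)
                    · exact mp h4 (by decide)
                  · exfalso; linarith
                · exfalso; linarith
            · rcases lt_or_gt_of_ne n35 with s35 | s35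
              · rcases lt_or_gt_of_ne n04 with s04 | s04
                · rcases lt_or_gt_of_ne n15 with s15 | s15
                  · refine ⟨9, mem_cell _ _ _ ?_ ?_ ?_ ?_ ?_ ?_ ?_ ?_ ?_ ?_ ?_ ?_ ?_ ?_ ?_⟩
                    · exact mp h0 (by decide)
                    · exact mp s02 (by decide)
                    · exact mp s03 (by decide)
                    · exact mn s04 (by decide)
                    · exact mn (sw h5) (by decide)
                    · exact mp h1 (by decide)
                    · exact mp s13 (by decide)
                    · exact mn s14 (by decide)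
                    · exact mn s15 (by decide)
                    · exact mp h2 (by decide)
                    · exact mp s24 (by decide)
                    · exact mn s25 (by decide)
                    · exact mp h3 (by decide)
                    · exact mn s35 (by decide)
                    · exact mp h4 (by decide)
                  · exfalso; linarith
                · exfalso; linarith
              · rcases lt_or_gt_of_ne n04 with s04 | s04
                · rcases lt_or_gt_of_ne n15 with s15 | s15
                  · refine ⟨12, mem_cell _ _ _ ?_ ?_ ?_ ?_ ?_ ?_ ?_ ?_ ?_ ?_ ?_ ?_ ?_ ?_ ?_⟩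
                    · exact mp h0 (by decide)
                    · exact mp s02 (by decide)
                    · exact mp s03 (by decide)
                    · exact mn s04 (by decide)
                    · exact mn (sw h5) (by decide)
                    · exact mp h1 (by decide)
                    · exact mp s13 (by decide)
                    · exact mn s14 (by decide)
                    · exact mn s15 (by decide)
                    · exact mp h2 (by decide)
                    · exact mp s24 (by decide)
                    · exact mn s25 (by decide)
                    · exact mp h3 (by decide)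
                    · exact mp s35 (by decide)
                    · exact mp h4 (by decide)
                  · exfalso; linarith
                · exfalso; linarith
      · exfalso; linarith
    · rcases lt_or_gt_of_ne n25 with s25 | s25
      · rcases lt_or_gt_of_ne n02 with s02 | s02
        · exfalso; linarith
        · rcases lt_or_gt_of_ne n13 with s13 | s13
          · exfalso; linarith
          · rcases lt_or_gt_of_ne n24 with s24 | s24
            · exfalso; linarith
            · rcases lt_or_gt_of_ne n35 with s35 | s35
              · rcases lt_or_gt_of_ne n04 with s04 | s04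
                · rcases lt_or_gt_of_ne n15 with s15 | s15
                  · refine ⟨5, mem_cell _ _ _ ?_ ?_ ?_ ?_ ?_ ?_ ?_ ?_ ?_ ?_ ?_ ?_ ?_ ?_ ?_⟩
                    · exact mp h0 (by decide)
                    · exact mp s02 (by decide)
                    · exact mp s03 (by decide)
                    · exact mn s04 (by decide)
                    · exact mn (sw h5) (by decide)
                    · exact mp h1 (by decide)
                    · exact mp s13 (by decide)
                    · exact mp s14 (by decide)
                    · exact mn s15 (by decide)
                    · exact mp h2 (by decide)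
                    · exact mp s24 (by decide)
                    · exact mn s25 (by decide)
                    · exact mp h3 (by decide)
                    · exact mn s35 (by decide)
                    · exact mp h4 (by decide)
                  · exfalso; linarith
                · rcases lt_or_gt_of_ne n15 with s15 | s15
                  · refine ⟨3, mem_cell _ _ _ ?_ ?_ ?_ ?_ ?_ ?_ ?_ ?_ ?_ ?_ ?_ ?_ ?_ ?_ ?_⟩
                    · exact mp h0 (by decide)
                    · exact mp s02 (by decide)
                    · exact mp s03 (by decide)
                    · exact mp s04 (by decide)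
                    · exact mn (sw h5) (by decide)
                    · exact mp h1 (by decide)
                    · exact mp s13 (by decide)
                    · exact mp s14 (by decide)
                    · exact mn s15 (by decide)
                    · exact mp h2 (by decide)
                    · exact mp s24 (by decide)
                    · exact mn s25 (by decide)
                    · exact mp h3 (by decide)
                    · exact mn s35 (by decide)
                    · exact mp h4 (by decide)
                  · exfalso; linarith
              · rcases lt_or_gt_of_ne n04 with s04 | s04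
                · rcases lt_or_gt_of_ne n15 with s15 | s15
                  · refine ⟨7, mem_cell _ _ _ ?_ ?_ ?_ ?_ ?_ ?_ ?_ ?_ ?_ ?_ ?_ ?_ ?_ ?_ ?_⟩
                    · exact mp h0 (by decide)
                    · exact mp s02 (by decide)
                    · exact mp s03 (by decide)
                    · exact mn s04 (by decide)
                    · exact mn (sw h5) (by decide)
                    · exact mp h1 (by decide)
                    · exact mp s13 (by decide)
                    · exact mp s14 (by decide)
                    · exact mn s15 (by decide)
                    · exact mp h2 (by decide)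
                    · exact mp s24 (by decide)
                    · exact mn s25 (by decide)
                    · exact mp h3 (by decide)
                    · exact mp s35 (by decide)
                    · exact mp h4 (by decide)
                  · exfalso; linarith
                · rcases lt_or_gt_of_ne n15 with s15 | s15
                  · refine ⟨1, mem_cell _ _ _ ?_ ?_ ?_ ?_ ?_ ?_ ?_ ?_ ?_ ?_ ?_ ?_ ?_ ?_ ?_⟩
                    · exact mp h0 (by decide)
                    · exact mp s02 (by decide)
                    · exact mp s03 (by decide)
                    · exact mp s04 (by decide)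
                    · exact mn (sw h5) (by decide)
                    · exact mp h1 (by decide)
                    · exact mp s13 (by decide)
                    · exact mp s14 (by decide)
                    · exact mn s15 (by decide)
                    · exact mp h2 (by decide)
                    · exact mp s24 (by decide)
                    · exact mn s25 (by decide)
                    · exact mp h3 (by decide)
                    · exact mp s35 (by decide)
                    · exact mp h4 (by decide)
                  · exfalso; linarith
      · rcases lt_or_gt_of_ne n02 with s02 | s02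
        · exfalso; linarith
        · rcases lt_or_gt_of_ne n13 with s13 | s13
          · exfalso; linarith
          · rcases lt_or_gt_of_ne n24 with s24 | s24
            · exfalso; linarith
            · rcases lt_or_gt_of_ne n35 with s35 | s35
              · exfalso; linarith
              · rcases lt_or_gt_of_ne n04 with s04 | s04
                · rcases lt_or_gt_of_ne n15 with s15 | s15
                  · refine ⟨6, mem_cell _ _ _ ?_ ?_ ?_ ?_ ?_ ?_ ?_ ?_ ?_ ?_ ?_ ?_ ?_ ?_ ?_⟩
                    · exact mp h0 (by decide)
                    · exact mp s02 (by decide)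
                    · exact mp s03 (by decide)
                    · exact mn s04 (by decide)
                    · exact mn (sw h5) (by decide)
                    · exact mp h1 (by decide)
                    · exact mp s13 (by decide)
                    · exact mp s14 (by decide)
                    · exact mn s15 (by decide)
                    · exact mp h2 (by decide)
                    · exact mp s24 (by decide)
                    · exact mp s25 (by decide)
                    · exact mp h3 (by decide)
                    · exact mp s35 (by decide)
                    · exact mp h4 (by decide)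
                  · refine ⟨4, mem_cell _ _ _ ?_ ?_ ?_ ?_ ?_ ?_ ?_ ?_ ?_ ?_ ?_ ?_ ?_ ?_ ?_⟩
                    · exact mp h0 (by decide)
                    · exact mp s02 (by decide)
                    · exact mp s03 (by decide)
                    · exact mn s04 (by decide)
                    · exact mn (sw h5) (by decide)
                    · exact mp h1 (by decide)
                    · exact mp s13 (by decide)
                    · exact mp s14 (by decide)
                    · exact mp s15 (by decide)
                    · exact mp h2 (by decide)
                    · exact mp s24 (by decide)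
                    · exact mp s25 (by decide)
                    · exact mp h3 (by decide)
                    · exact mp s35 (by decide)
                    · exact mp h4 (by decide)
                · rcases lt_or_gt_of_ne n15 with s15 | s15
                  · refine ⟨0, mem_cell _ _ _ ?_ ?_ ?_ ?_ ?_ ?_ ?_ ?_ ?_ ?_ ?_ ?_ ?_ ?_ ?_⟩
                    · exact mp h0 (by decide)
                    · exact mp s02 (by decide)
                    · exact mp s03 (by decide)
                    · exact mp s04 (by decide)
                    · exact mn (sw h5) (by decide)
                    · exact mp h1 (by decide)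
                    · exact mp s13 (by decide)
                    · exact mp s14 (by decide)
                    · exact mn s15 (by decide)
                    · exact mp h2 (by decide)
                    · exact mp s24 (by decide)
                    · exact mp s25 (by decide)
                    · exact mp h3 (by decide)
                    · exact mp s35 (by decide)
                    · exact mp h4 (by decide)
                  · refine ⟨2, mem_cell _ _ _ ?_ ?_ ?_ ?_ ?_ ?_ ?_ ?_ ?_ ?_ ?_ ?_ ?_ ?_ ?_⟩
                    · exact mp h0 (by decide)
                    · exact mp s02 (by decide)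
                    · exact mp s03 (by decide)
                    · exact mp s04 (by decide)
                    · exact mn (sw h5) (by decide)
                    · exact mp h1 (by decide)
                    · exact mp s13 (by decide)
                    · exact mp s14 (by decide)
                    · exact mp s15 (by decide)
                    · exact mp h2 (by decide)
                    · exact mp s24 (by decide)
                    · exact mp s25 (by decide)
                    · exact mp h3 (by decide)
                    · exact mp s35 (by decide)
                    · exact mp h4 (by decide)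

/-- The configuration of the hexagon whose long diagonals meet in one point. -/
def confA : Config 24 where
  P := PA
  rep := repA
  hh := 6
  H := sides
  d := 10
  T := tri10
  L := LA
  hP := by decide
  hH := by decide
  hhull := by decide
  hrep := by decide
  hrep2 := by decide
  hdisj := by decide
  hcov := covA
  hT := by decide
  hT1 := by decide
  hL0 := by decide
  hL1 := by decide
  hN := by decide
  hN' := ⟨0⟩

/-- The vertices of a hexagon whose long diagonals form a triangle. -/
def PB : Fin 6 → ℤ × ℤ :=
  ![(60, 0), (120, 0), (180, 60), (120, 120), (60, 120), (0, 70)]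

/-- A point in each of its 25 chambers. -/
def repB : Fin 25 → ℤ × ℤ :=
  ![(45, 58), (47, 76), (50, 31), (52, 99), (64, 101), (66, 24), (71, 74),
    (73, 107), (74, 56), (77, 17), (87, 111), (90, 10), (90, 32), (90, 63),
    (90, 90), (105, 16), (105, 105), (106, 55), (108, 72), (114, 22), (114, 98),
    (129, 26), (129, 94), (133, 71), (135, 52)]

/-- The coefficients of measures which vanish on one chamber only. -/
def LB : Fin 25 → Fin 10 → ℤ :=
  ![![1, 0, 0, 1, 1, 1, -1, 1, 0, 1],
    ![1, 0, 0, 0, 1, 0, 1, 2, -1, 1],
    ![1, 0, 1, -1, 1, 0, 0, 1, 0, 1],
    ![1, 0, 0, 0, 1, 0, 0, 1, 1, 0],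
    ![1, 1, -1, 0, 1, 0, 0, 1, 1, 1],
    ![1, 1, 0, -1, 1, 0, 0, 1, 0, 2],
    ![1, 1, -1, 0, 1, 0, 1, 2, -1, 2],
    ![1, 0, 1, -1, 2, -1, 0, 1, 1, 1],
    ![1, 1, -1, 1, 1, 1, -1, 1, 0, 2],
    ![2, 0, 0, -1, 1, 0, 0, 1, 1, 1],
    ![1, 0, 0, 0, 1, 1, -1, 0, 1, 1],
    ![1, 0, 0, -1, 1, 0, 1, 1, 0, 1],
    ![2, 0, -1, 1, 1, 0, 0, 2, 0, 1],
    ![1, 0, 1, 0, 2, 0, -1, 1, 0, 2],
    ![1, 0, 1, -1, 2, -1, 1, 2, -1, 2],
    ![1, 0, -1, 1, 1, 0, 1, 2, 0, 1],
    ![1, 0, 0, 0, 1, 1, 0, 1, -1, 2],
    ![2, -1, 1, 0, 2, 0, -1, 1, 1, 1],
    ![2, -1, 0, 0, 2, -1, 1, 2, 0, 1],
    ![1, -1, 1, 0, 2, 0, 0, 1, 0, 1],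
    ![2, -1, 0, 0, 1, 1, 0, 1, 0, 1],
    ![0, 1, 0, 0, 1, 0, 0, 1, 0, 1],
    ![1, 1, -1, 0, 0, 1, 0, 1, 0, 1],
    ![1, 1, 0, -1, 1, -1, 1, 2, 0, 1],
    ![1, 1, 0, 0, 1, 0, -1, 1, 1, 1]]

theorem dB01 (x : ℂ) : det3 (pt (PB 0)) (pt (PB 1)) x =
    0 * x.re + 60 * x.im + 0 := by
  have h := dgen (p := PB 0) (q := PB 1) (a := 0) (b := 60)
    (c := 0) (by decide) (by decide) (by decide) x
  push_cast at h
  linarith

theorem dB02 (x : ℂ) : det3 (pt (PB 0)) (pt (PB 2)) x =
    (-60) * x.re + 120 * x.im + 3600 := by
  have h := dgen (p := PB 0) (q := PB 2) (a := -60) (b := 120)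
    (c := 3600) (by decide) (by decide) (by decide) x
  push_cast at h
  linarith

theorem dB03 (x : ℂ) : det3 (pt (PB 0)) (pt (PB 3)) x =
    (-120) * x.re + 60 * x.im + 7200 := by
  have h := dgen (p := PB 0) (q := PB 3) (a := -120) (b := 60)
    (c := 7200) (by decide) (by decide) (by decide) x
  push_cast at h
  linarith

theorem dB04 (x : ℂ) : det3 (pt (PB 0)) (pt (PB 4)) x =
    (-120) * x.re + 0 * x.im + 7200 := by
  have h := dgen (p := PB 0) (q := PB 4) (a := -120) (b := 0)
    (c := 7200) (by decide) (by decide) (by decide) x
  push_cast at h
  linarith

theorem dB05 (x : ℂ) : det3 (pt (PB 0)) (pt (PB 5)) x =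
    (-70) * x.re + (-60) * x.im + 4200 := by
  have h := dgen (p := PB 0) (q := PB 5) (a := -70) (b := -60)
    (c := 4200) (by decide) (by decide) (by decide) x
  push_cast at h
  linarith

theorem dB12 (x : ℂ) : det3 (pt (PB 1)) (pt (PB 2)) x =
    (-60) * x.re + 60 * x.im + 7200 := by
  have h := dgen (p := PB 1) (q := PB 2) (a := -60) (b := 60)
    (c := 7200) (by decide) (by decide) (by decide) x
  push_cast at h
  linarith

theorem dB13 (x : ℂ) : det3 (pt (PB 1)) (pt (PB 3)) x =
    (-120) * x.re + 0 * x.im + 14400 := by
  have h := dgen (p := PB 1) (q := PB 3) (a := -120) (b := 0)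
    (c := 14400) (by decide) (by decide) (by decide) x
  push_cast at h
  linarith

theorem dB14 (x : ℂ) : det3 (pt (PB 1)) (pt (PB 4)) x =
    (-120) * x.re + (-60) * x.im + 14400 := by
  have h := dgen (p := PB 1) (q := PB 4) (a := -120) (b := -60)
    (c := 14400) (by decide) (by decide) (by decide) x
  push_cast at h
  linarith

theorem dB15 (x : ℂ) : det3 (pt (PB 1)) (pt (PB 5)) x =
    (-70) * x.re + (-120) * x.im + 8400 := by
  have h := dgen (p := PB 1) (q := PB 5) (a := -70) (b := -120)
    (c := 8400) (by decide) (by decide) (by decide) x
  push_cast at h
  linarith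

theorem dB23 (x : ℂ) : det3 (pt (PB 2)) (pt (PB 3)) x =
    (-60) * x.re + (-60) * x.im + 14400 := by
  have h := dgen (p := PB 2) (q := PB 3) (a := -60) (b := -60)
    (c := 14400) (by decide) (by decide) (by decide) x
  push_cast at h
  linarith

theorem dB24 (x : ℂ) : det3 (pt (PB 2)) (pt (PB 4)) x =
    (-60) * x.re + (-120) * x.im + 18000 := by
  have h := dgen (p := PB 2) (q := PB 4) (a := -60) (b := -120)
    (c := 18000) (by decide) (by decide) (by decide) x
  push_cast at h
  linarith

theorem dB25 (x : ℂ) : det3 (pt (PB 2)) (pt (PB 5)) x =
    (-10) * x.re + (-180) * x.im + 12600 := by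
  have h := dgen (p := PB 2) (q := PB 5) (a := -10) (b := -180)
    (c := 12600) (by decide) (by decide) (by decide) x
  push_cast at h
  linarith

theorem dB34 (x : ℂ) : det3 (pt (PB 3)) (pt (PB 4)) x =
    0 * x.re + (-60) * x.im + 7200 := by
  have h := dgen (p := PB 3) (q := PB 4) (a := 0) (b := -60)
    (c := 7200) (by decide) (by decide) (by decide) x
  push_cast at h
  linarith

theorem dB35 (x : ℂ) : det3 (pt (PB 3)) (pt (PB 5)) x =
    50 * x.re + (-120) * x.im + 8400 := by
  have h := dgen (p := PB 3) (q := PB 5) (a := 50) (b := -120)
    (c := 8400) (by decide) (by decide) (by decide) x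
  push_cast at h
  linarith

theorem dB45 (x : ℂ) : det3 (pt (PB 4)) (pt (PB 5)) x =
    50 * x.re + (-60) * x.im + 4200 := by
  have h := dgen (p := PB 4) (q := PB 5) (a := 50) (b := -60)
    (c := 4200) (by decide) (by decide) (by decide) x
  push_cast at h
  linarith

theorem dB50 (x : ℂ) : det3 (pt (PB 5)) (pt (PB 0)) x =
    70 * x.re + 60 * x.im + (-4200) := by
  have h := dgen (p := PB 5) (q := PB 0) (a := 70) (b := 60)
    (c := -4200) (by decide) (by decide) (by decide) x
  push_cast at h
  linarith

theorem covB (x : ℂ) (hx : ∀ i j : Fin 6, i < j → det3 (pt (PB i)) (pt (PB j)) x ≠ 0)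
    (hs : ∀ s, 0 < det3 (pt (PB (sides s).1)) (pt (PB (sides s).2)) x) :
    ∃ m, x ∈ cell PB (repB m) := by
  have n03 := hx 0 3 (by decide)
  have n14 := hx 1 4 (by decide)
  have n25 := hx 2 5 (by decide)
  have n02 := hx 0 2 (by decide)
  have n13 := hx 1 3 (by decide)
  have n24 := hx 2 4 (by decide)
  have n35 := hx 3 5 (by decide)
  have n04 := hx 0 4 (by decide)
  have n15 := hx 1 5 (by decide)
  have e03 := dB03 x
  have e14 := dB14 x
  have e25 := dB25 x
  have e02 := dB02 x
  have e13 := dB13 x
  have e24 := dB24 x
  have e35 := dB35 x
  have e04 := dB04 x
  have e15 := dB15 x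
  have h0 : 0 < det3 (pt (PB 0)) (pt (PB 1)) x := hs 0
  have f0 := dB01 x
  have h1 : 0 < det3 (pt (PB 1)) (pt (PB 2)) x := hs 1
  have f1 := dB12 x
  have h2 : 0 < det3 (pt (PB 2)) (pt (PB 3)) x := hs 2
  have f2 := dB23 x
  have h3 : 0 < det3 (pt (PB 3)) (pt (PB 4)) x := hs 3
  have f3 := dB34 x
  have h4 : 0 < det3 (pt (PB 4)) (pt (PB 5)) x := hs 4
  have f4 := dB45 x
  have h5 : 0 < det3 (pt (PB 5)) (pt (PB 0)) x := hs 5
  have f5 := dB50 x
  rcases lt_or_gt_of_ne n03 with s03 | s03
  · rcases lt_or_gt_of_ne n14 with s14 | s14
    · rcases lt_or_gt_of_ne n25 with s25 | s25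
      · rcases lt_or_gt_of_ne n02 with s02 | s02
        · exfalso; linarith
        · rcases lt_or_gt_of_ne n13 with s13 | s13
          · rcases lt_or_gt_of_ne n24 with s24 | s24
            · rcases lt_or_gt_of_ne n35 with s35 | s35
              · exfalso; linarith
              · rcases lt_or_gt_of_ne n04 with s04 | s04
                · rcases lt_or_gt_of_ne n15 with s15 | s15
                  · refine ⟨22, mem_cell _ _ _ ?_ ?_ ?_ ?_ ?_ ?_ ?_ ?_ ?_ ?_ ?_ ?_ ?_ ?_ ?_⟩
                    · exact mp h0 (by decide)
                    · exact mp s02 (by decide)
                    · exact mn s03 (by decide)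
                    · exact mn s04 (by decide)
                    · exact mn (sw h5) (by decide)
                    · exact mp h1 (by decide)
                    · exact mn s13 (by decide)
                    · exact mn s14 (by decide)
                    · exact mn s15 (by decide)
                    · exact mp h2 (by decide)
                    · exact mn s24 (by decide)
                    · exact mn s25 (by decide)
                    · exact mp h3 (by decide)
                    · exact mp s35 (by decide)
                    · exact mp h4 (by decide)
                  · exfalso; linarith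
                · exfalso; linarith
            · rcases lt_or_gt_of_ne n35 with s35 | s35
              · exfalso; linarith
              · rcases lt_or_gt_of_ne n04 with s04 | s04
                · rcases lt_or_gt_of_ne n15 with s15 | s15
                  · refine ⟨23, mem_cell _ _ _ ?_ ?_ ?_ ?_ ?_ ?_ ?_ ?_ ?_ ?_ ?_ ?_ ?_ ?_ ?_⟩
                    · exact mp h0 (by decide)
                    · exact mp s02 (by decide)
                    · exact mn s03 (by decide)
                    · exact mn s04 (by decide)
                    · exact mn (sw h5) (by decide)
                    · exact mp h1 (by decide)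
                    · exact mn s13 (by decide)
                    · exact mn s14 (by decide)
                    · exact mn s15 (by decide)
                    · exact mp h2 (by decide)
                    · exact mp s24 (by decide)
                    · exact mn s25 (by decide)
                    · exact mp h3 (by decide)
                    · exact mp s35 (by decide)
                    · exact mp h4 (by decide)
                  · exfalso; linarith
                · exfalso; linarith
          · rcases lt_or_gt_of_ne n24 with s24 | s24
            · rcases lt_or_gt_of_ne n35 with s35 | s35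
              · exfalso; linarith
              · rcases lt_or_gt_of_ne n04 with s04 | s04
                · rcases lt_or_gt_of_ne n15 with s15 | s15
                  · refine ⟨20, mem_cell _ _ _ ?_ ?_ ?_ ?_ ?_ ?_ ?_ ?_ ?_ ?_ ?_ ?_ ?_ ?_ ?_⟩
                    · exact mp h0 (by decide)
                    · exact mp s02 (by decide)
                    · exact mn s03 (by decide)
                    · exact mn s04 (by decide)
                    · exact mn (sw h5) (by decide)
                    · exact mp h1 (by decide)
                    · exact mp s13 (by decide)
                    · exact mn s14 (by decide)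
                    · exact mn s15 (by decide)
                    · exact mp h2 (by decide)
                    · exact mn s24 (by decide)
                    · exact mn s25 (by decide)
                    · exact mp h3 (by decide)
                    · exact mp s35 (by decide)
                    · exact mp h4 (by decide)
                  · exfalso; linarith
                · exfalso; linarith
            · rcases lt_or_gt_of_ne n35 with s35 | s35
              · exfalso; linarith
              · rcases lt_or_gt_of_ne n04 with s04 | s04
                · rcases lt_or_gt_of_ne n15 with s15 | s15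
                  · refine ⟨18, mem_cell _ _ _ ?_ ?_ ?_ ?_ ?_ ?_ ?_ ?_ ?_ ?_ ?_ ?_ ?_ ?_ ?_⟩
                    · exact mp h0 (by decide)
                    · exact mp s02 (by decide)
                    · exact mn s03 (by decide)
                    · exact mn s04 (by decide)
                    · exact mn (sw h5) (by decide)
                    · exact mp h1 (by decide)
                    · exact mp s13 (by decide)
                    · exact mn s14 (by decide)
                    · exact mn s15 (by decide)
                    · exact mp h2 (by decide)
                    · exact mp s24 (by decide)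
                    · exact mn s25 (by decide)
                    · exact mp h3 (by decide)
                    · exact mp s35 (by decide)
                    · exact mp h4 (by decide)
                  · exfalso; linarith
                · exfalso; linarith
      · rcases lt_or_gt_of_ne n02 with s02 | s02
        · rcases lt_or_gt_of_ne n13 with s13 | s13
          · rcases lt_or_gt_of_ne n24 with s24 | s24
            · exfalso; linarith
            · rcases lt_or_gt_of_ne n35 with s35 | s35
              · exfalso; linarith
              · rcases lt_or_gt_of_ne n04 with s04 | s04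
                · rcases lt_or_gt_of_ne n15 with s15 | s15
                  · refine ⟨21, mem_cell _ _ _ ?_ ?_ ?_ ?_ ?_ ?_ ?_ ?_ ?_ ?_ ?_ ?_ ?_ ?_ ?_⟩
                    · exact mp h0 (by decide)
                    · exact mn s02 (by decide)
                    · exact mn s03 (by decide)
                    · exact mn s04 (by decide)
                    · exact mn (sw h5) (by decide)
                    · exact mp h1 (by decide)
                    · exact mn s13 (by decide)
                    · exact mn s14 (by decide)
                    · exact mn s15 (by decide)
                    · exact mp h2 (by decide)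
                    · exact mp s24 (by decide)
                    · exact mp s25 (by decide)
                    · exact mp h3 (by decide)
                    · exact mp s35 (by decide)
                    · exact mp h4 (by decide)
                  · exfalso; linarith
                · exfalso; linarith
          · rcases lt_or_gt_of_ne n24 with s24 | s24
            · exfalso; linarith
            · rcases lt_or_gt_of_ne n35 with s35 | s35
              · exfalso; linarith
              · rcases lt_or_gt_of_ne n04 with s04 | s04
                · rcases lt_or_gt_of_ne n15 with s15 | s15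
                  · refine ⟨19, mem_cell _ _ _ ?_ ?_ ?_ ?_ ?_ ?_ ?_ ?_ ?_ ?_ ?_ ?_ ?_ ?_ ?_⟩
                    · exact mp h0 (by decide)
                    · exact mn s02 (by decide)
                    · exact mn s03 (by decide)
                    · exact mn s04 (by decide)
                    · exact mn (sw h5) (by decide)
                    · exact mp h1 (by decide)
                    · exact mp s13 (by decide)
                    · exact mn s14 (by decide)
                    · exact mn s15 (by decide)
                    · exact mp h2 (by decide)
                    · exact mp s24 (by decide)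
                    · exact mp s25 (by decide)
                    · exact mp h3 (by decide)
                    · exact mp s35 (by decide)
                    · exact mp h4 (by decide)
                  · exfalso; linarith
                · exfalso; linarith
        · rcases lt_or_gt_of_ne n13 with s13 | s13
          · rcases lt_or_gt_of_ne n24 with s24 | s24
            · exfalso; linarith
            · rcases lt_or_gt_of_ne n35 with s35 | s35
              · exfalso; linarith
              · rcases lt_or_gt_of_ne n04 with s04 | s04
                · rcases lt_or_gt_of_ne n15 with s15 | s15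
                  · refine ⟨24, mem_cell _ _ _ ?_ ?_ ?_ ?_ ?_ ?_ ?_ ?_ ?_ ?_ ?_ ?_ ?_ ?_ ?_⟩
                    · exact mp h0 (by decide)
                    · exact mp s02 (by decide)
                    · exact mn s03 (by decide)
                    · exact mn s04 (by decide)
                    · exact mn (sw h5) (by decide)
                    · exact mp h1 (by decide)
                    · exact mn s13 (by decide)
                    · exact mn s14 (by decide)
                    · exact mn s15 (by decide)
                    · exact mp h2 (by decide)
                    · exact mp s24 (by decide)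
                    · exact mp s25 (by decide)
                    · exact mp h3 (by decide)
                    · exact mp s35 (by decide)
                    · exact mp h4 (by decide)
                  · exfalso; linarith
                · exfalso; linarith
          · rcases lt_or_gt_of_ne n24 with s24 | s24
            · exfalso; linarith
            · rcases lt_or_gt_of_ne n35 with s35 | s35
              · exfalso; linarith
              · rcases lt_or_gt_of_ne n04 with s04 | s04
                · rcases lt_or_gt_of_ne n15 with s15 | s15
                  · refine ⟨17, mem_cell _ _ _ ?_ ?_ ?_ ?_ ?_ ?_ ?_ ?_ ?_ ?_ ?_ ?_ ?_ ?_ ?_⟩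
                    · exact mp h0 (by decide)
                    · exact mp s02 (by decide)
                    · exact mn s03 (by decide)
                    · exact mn s04 (by decide)
                    · exact mn (sw h5) (by decide)
                    · exact mp h1 (by decide)
                    · exact mp s13 (by decide)
                    · exact mn s14 (by decide)
                    · exact mn s15 (by decide)
                    · exact mp h2 (by decide)
                    · exact mp s24 (by decide)
                    · exact mp s25 (by decide)
                    · exact mp h3 (by decide)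
                    · exact mp s35 (by decide)
                    · exact mp h4 (by decide)
                  · exfalso; linarith
                · exfalso; linarith
    · rcases lt_or_gt_of_ne n25 with s25 | s25
      · exfalso; linarith
      · rcases lt_or_gt_of_ne n02 with s02 | s02
        · rcases lt_or_gt_of_ne n13 with s13 | s13
          · exfalso; linarith
          · rcases lt_or_gt_of_ne n24 with s24 | s24
            · exfalso; linarith
            · rcases lt_or_gt_of_ne n35 with s35 | s35
              · exfalso; linarith
              · rcases lt_or_gt_of_ne n04 with s04 | s04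
                · rcases lt_or_gt_of_ne n15 with s15 | s15
                  · refine ⟨15, mem_cell _ _ _ ?_ ?_ ?_ ?_ ?_ ?_ ?_ ?_ ?_ ?_ ?_ ?_ ?_ ?_ ?_⟩
                    · exact mp h0 (by decide)
                    · exact mn s02 (by decide)
                    · exact mn s03 (by decide)
                    · exact mn s04 (by decide)
                    · exact mn (sw h5) (by decide)
                    · exact mp h1 (by decide)
                    · exact mp s13 (by decide)
                    · exact mp s14 (by decide)
                    · exact mn s15 (by decide)
                    · exact mp h2 (by decide)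
                    · exact mp s24 (by decide)
                    · exact mp s25 (by decide)
                    · exact mp h3 (by decide)
                    · exact mp s35 (by decide)
                    · exact mp h4 (by decide)
                  · refine ⟨11, mem_cell _ _ _ ?_ ?_ ?_ ?_ ?_ ?_ ?_ ?_ ?_ ?_ ?_ ?_ ?_ ?_ ?_⟩
                    · exact mp h0 (by decide)
                    · exact mn s02 (by decide)
                    · exact mn s03 (by decide)
                    · exact mn s04 (by decide)
                    · exact mn (sw h5) (by decide)
                    · exact mp h1 (by decide)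
                    · exact mp s13 (by decide)
                    · exact mp s14 (by decide)
                    · exact mp s15 (by decide)
                    · exact mp h2 (by decide)
                    · exact mp s24 (by decide)
                    · exact mp s25 (by decide)
                    · exact mp h3 (by decide)
                    · exact mp s35 (by decide)
                    · exact mp h4 (by decide)
                · exfalso; linarith
        · rcases lt_or_gt_of_ne n13 with s13 | s13
          · exfalso; linarith
          · rcases lt_or_gt_of_ne n24 with s24 | s24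
            · exfalso; linarith
            · rcases lt_or_gt_of_ne n35 with s35 | s35
              · exfalso; linarith
              · rcases lt_or_gt_of_ne n04 with s04 | s04
                · rcases lt_or_gt_of_ne n15 with s15 | s15
                  · refine ⟨12, mem_cell _ _ _ ?_ ?_ ?_ ?_ ?_ ?_ ?_ ?_ ?_ ?_ ?_ ?_ ?_ ?_ ?_⟩
                    · exact mp h0 (by decide)
                    · exact mp s02 (by decide)
                    · exact mn s03 (by decide)
                    · exact mn s04 (by decide)
                    · exact mn (sw h5) (by decide)
                    · exact mp h1 (by decide)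
                    · exact mp s13 (by decide)
                    · exact mp s14 (by decide)
                    · exact mn s15 (by decide)
                    · exact mp h2 (by decide)
                    · exact mp s24 (by decide)
                    · exact mp s25 (by decide)
                    · exact mp h3 (by decide)
                    · exact mp s35 (by decide)
                    · exact mp h4 (by decide)
                  · refine ⟨9, mem_cell _ _ _ ?_ ?_ ?_ ?_ ?_ ?_ ?_ ?_ ?_ ?_ ?_ ?_ ?_ ?_ ?_⟩
                    · exact mp h0 (by decide)
                    · exact mp s02 (by decide)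
                    · exact mn s03 (by decide)
                    · exact mn s04 (by decide)
                    · exact mn (sw h5) (by decide)
                    · exact mp h1 (by decide)
                    · exact mp s13 (by decide)
                    · exact mp s14 (by decide)
                    · exact mp s15 (by decide)
                    · exact mp h2 (by decide)
                    · exact mp s24 (by decide)
                    · exact mp s25 (by decide)
                    · exact mp h3 (by decide)
                    · exact mp s35 (by decide)
                    · exact mp h4 (by decide)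
                · exfalso; linarith
  · rcases lt_or_gt_of_ne n14 with s14 | s14
    · rcases lt_or_gt_of_ne n25 with s25 | s25
      · rcases lt_or_gt_of_ne n02 with s02 | s02
        · exfalso; linarith
        · rcases lt_or_gt_of_ne n13 with s13 | s13
          · exfalso; linarith
          · rcases lt_or_gt_of_ne n24 with s24 | s24
            · rcases lt_or_gt_of_ne n35 with s35 | s35
              · rcases lt_or_gt_of_ne n04 with s04 | s04
                · rcases lt_or_gt_of_ne n15 with s15 | s15
                  · refine ⟨10, mem_cell _ _ _ ?_ ?_ ?_ ?_ ?_ ?_ ?_ ?_ ?_ ?_ ?_ ?_ ?_ ?_ ?_⟩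
                    · exact mp h0 (by decide)
                    · exact mp s02 (by decide)
                    · exact mp s03 (by decide)
                    · exact mn s04 (by decide)
                    · exact mn (sw h5) (by decide)
                    · exact mp h1 (by decide)
                    · exact mp s13 (by decide)
                    · exact mn s14 (by decide)
                    · exact mn s15 (by decide)
                    · exact mp h2 (by decide)
                    · exact mn s24 (by decide)
                    · exact mn s25 (by decide)
                    · exact mp h3 (by decide)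
                    · exact mn s35 (by decide)
                    · exact mp h4 (by decide)
                  · exfalso; linarith
                · exfalso; linarith
              · rcases lt_or_gt_of_ne n04 with s04 | s04
                · rcases lt_or_gt_of_ne n15 with s15 | s15
                  · refine ⟨16, mem_cell _ _ _ ?_ ?_ ?_ ?_ ?_ ?_ ?_ ?_ ?_ ?_ ?_ ?_ ?_ ?_ ?_⟩
                    · exact mp h0 (by decide)
                    · exact mp s02 (by decide)
                    · exact mp s03 (by decide)
                    · exact mn s04 (by decide)
                    · exact mn (sw h5) (by decide)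
                    · exact mp h1 (by decide)
                    · exact mp s13 (by decide)
                    · exact mn s14 (by decide)
                    · exact mn s15 (by decide)
                    · exact mp h2 (by decide)
                    · exact mn s24 (by decide)
                    · exact mn s25 (by decide)
                    · exact mp h3 (by decide)
                    · exact mp s35 (by decide)
                    · exact mp h4 (by decide)
                  · exfalso; linarith
                · exfalso; linarith
            · rcases lt_or_gt_of_ne n35 with s35 | s35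
              · rcases lt_or_gt_of_ne n04 with s04 | s04
                · rcases lt_or_gt_of_ne n15 with s15 | s15
                  · refine ⟨7, mem_cell _ _ _ ?_ ?_ ?_ ?_ ?_ ?_ ?_ ?_ ?_ ?_ ?_ ?_ ?_ ?_ ?_⟩
                    · exact mp h0 (by decide)
                    · exact mp s02 (by decide)
                    · exact mp s03 (by decide)
                    · exact mn s04 (by decide)
                    · exact mn (sw h5) (by decide)
                    · exact mp h1 (by decide)
                    · exact mp s13 (by decide)
                    · exact mn s14 (by decide)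
                    · exact mn s15 (by decide)
                    · exact mp h2 (by decide)
                    · exact mp s24 (by decide)
                    · exact mn s25 (by decide)
                    · exact mp h3 (by decide)
                    · exact mn s35 (by decide)
                    · exact mp h4 (by decide)
                  · exfalso; linarith
                · exfalso; linarith
              · rcases lt_or_gt_of_ne n04 with s04 | s04
                · rcases lt_or_gt_of_ne n15 with s15 | s15
                  · refine ⟨14, mem_cell _ _ _ ?_ ?_ ?_ ?_ ?_ ?_ ?_ ?_ ?_ ?_ ?_ ?_ ?_ ?_ ?_⟩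
                    · exact mp h0 (by decide)
                    · exact mp s02 (by decide)
                    · exact mp s03 (by decide)
                    · exact mn s04 (by decide)
                    · exact mn (sw h5) (by decide)
                    · exact mp h1 (by decide)
                    · exact mp s13 (by decide)
                    · exact mn s14 (by decide)
                    · exact mn s15 (by decide)
                    · exact mp h2 (by decide)
                    · exact mp s24 (by decide)
                    · exact mn s25 (by decide)
                    · exact mp h3 (by decide)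
                    · exact mp s35 (by decide)
                    · exact mp h4 (by decide)
                  · exfalso; linarith
                · exfalso; linarith
      · rcases lt_or_gt_of_ne n02 with s02 | s02
        · exfalso; linarith
        · rcases lt_or_gt_of_ne n13 with s13 | s13
          · exfalso; linarith
          · rcases lt_or_gt_of_ne n24 with s24 | s24
            · exfalso; linarith
            · rcases lt_or_gt_of_ne n35 with s35 | s35
              · exfalso; linarith
              · rcases lt_or_gt_of_ne n04 with s04 | s04
                · rcases lt_or_gt_of_ne n15 with s15 | s15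
                  · refine ⟨13, mem_cell _ _ _ ?_ ?_ ?_ ?_ ?_ ?_ ?_ ?_ ?_ ?_ ?_ ?_ ?_ ?_ ?_⟩
                    · exact mp h0 (by decide)
                    · exact mp s02 (by decide)
                    · exact mp s03 (by decide)
                    · exact mn s04 (by decide)
                    · exact mn (sw h5) (by decide)
                    · exact mp h1 (by decide)
                    · exact mp s13 (by decide)
                    · exact mn s14 (by decide)
                    · exact mn s15 (by decide)
                    · exact mp h2 (by decide)
                    · exact mp s24 (by decide)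
                    · exact mp s25 (by decide)
                    · exact mp h3 (by decide)
                    · exact mp s35 (by decide)
                    · exact mp h4 (by decide)
                  · exfalso; linarith
                · exfalso; linarith
    · rcases lt_or_gt_of_ne n25 with s25 | s25
      · rcases lt_or_gt_of_ne n02 with s02 | s02
        · exfalso; linarith
        · rcases lt_or_gt_of_ne n13 with s13 | s13
          · exfalso; linarith
          · rcases lt_or_gt_of_ne n24 with s24 | s24
            · exfalso; linarith
            · rcases lt_or_gt_of_ne n35 with s35 | s35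
              · rcases lt_or_gt_of_ne n04 with s04 | s04
                · rcases lt_or_gt_of_ne n15 with s15 | s15
                  · refine ⟨4, mem_cell _ _ _ ?_ ?_ ?_ ?_ ?_ ?_ ?_ ?_ ?_ ?_ ?_ ?_ ?_ ?_ ?_⟩
                    · exact mp h0 (by decide)
                    · exact mp s02 (by decide)
                    · exact mp s03 (by decide)
                    · exact mn s04 (by decide)
                    · exact mn (sw h5) (by decide)
                    · exact mp h1 (by decide)
                    · exact mp s13 (by decide)
                    · exact mp s14 (by decide)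
                    · exact mn s15 (by decide)
                    · exact mp h2 (by decide)
                    · exact mp s24 (by decide)
                    · exact mn s25 (by decide)
                    · exact mp h3 (by decide)
                    · exact mn s35 (by decide)
                    · exact mp h4 (by decide)
                  · exfalso; linarith
                · rcases lt_or_gt_of_ne n15 with s15 | s15
                  · refine ⟨3, mem_cell _ _ _ ?_ ?_ ?_ ?_ ?_ ?_ ?_ ?_ ?_ ?_ ?_ ?_ ?_ ?_ ?_⟩
                    · exact mp h0 (by decide)
                    · exact mp s02 (by decide)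
                    · exact mp s03 (by decide)
                    · exact mp s04 (by decide)
                    · exact mn (sw h5) (by decide)
                    · exact mp h1 (by decide)
                    · exact mp s13 (by decide)
                    · exact mp s14 (by decide)
                    · exact mn s15 (by decide)
                    · exact mp h2 (by decide)
                    · exact mp s24 (by decide)
                    · exact mn s25 (by decide)
                    · exact mp h3 (by decide)
                    · exact mn s35 (by decide)
                    · exact mp h4 (by decide)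
                  · exfalso; linarith
              · rcases lt_or_gt_of_ne n04 with s04 | s04
                · rcases lt_or_gt_of_ne n15 with s15 | s15
                  · refine ⟨6, mem_cell _ _ _ ?_ ?_ ?_ ?_ ?_ ?_ ?_ ?_ ?_ ?_ ?_ ?_ ?_ ?_ ?_⟩
                    · exact mp h0 (by decide)
                    · exact mp s02 (by decide)
                    · exact mp s03 (by decide)
                    · exact mn s04 (by decide)
                    · exact mn (sw h5) (by decide)
                    · exact mp h1 (by decide)
                    · exact mp s13 (by decide)
                    · exact mp s14 (by decide)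
                    · exact mn s15 (by decide)
                    · exact mp h2 (by decide)
                    · exact mp s24 (by decide)
                    · exact mn s25 (by decide)
                    · exact mp h3 (by decide)
                    · exact mp s35 (by decide)
                    · exact mp h4 (by decide)
                  · exfalso; linarith
                · rcases lt_or_gt_of_ne n15 with s15 | s15
                  · refine ⟨1, mem_cell _ _ _ ?_ ?_ ?_ ?_ ?_ ?_ ?_ ?_ ?_ ?_ ?_ ?_ ?_ ?_ ?_⟩
                    · exact mp h0 (by decide)
                    · exact mp s02 (by decide)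
                    · exact mp s03 (by decide)
                    · exact mp s04 (by decide)
                    · exact mn (sw h5) (by decide)
                    · exact mp h1 (by decide)
                    · exact mp s13 (by decide)
                    · exact mp s14 (by decide)
                    · exact mn s15 (by decide)
                    · exact mp h2 (by decide)
                    · exact mp s24 (by decide)
                    · exact mn s25 (by decide)
                    · exact mp h3 (by decide)
                    · exact mp s35 (by decide)
                    · exact mp h4 (by decide)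
                  · exfalso; linarith
      · rcases lt_or_gt_of_ne n02 with s02 | s02
        · exfalso; linarith
        · rcases lt_or_gt_of_ne n13 with s13 | s13
          · exfalso; linarith
          · rcases lt_or_gt_of_ne n24 with s24 | s24
            · exfalso; linarith
            · rcases lt_or_gt_of_ne n35 with s35 | s35
              · exfalso; linarith
              · rcases lt_or_gt_of_ne n04 with s04 | s04
                · rcases lt_or_gt_of_ne n15 with s15 | s15
                  · refine ⟨8, mem_cell _ _ _ ?_ ?_ ?_ ?_ ?_ ?_ ?_ ?_ ?_ ?_ ?_ ?_ ?_ ?_ ?_⟩
                    · exact mp h0 (by decide)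
                    · exact mp s02 (by decide)
                    · exact mp s03 (by decide)
                    · exact mn s04 (by decide)
                    · exact mn (sw h5) (by decide)
                    · exact mp h1 (by decide)
                    · exact mp s13 (by decide)
                    · exact mp s14 (by decide)
                    · exact mn s15 (by decide)
                    · exact mp h2 (by decide)
                    · exact mp s24 (by decide)
                    · exact mp s25 (by decide)
                    · exact mp h3 (by decide)
                    · exact mp s35 (by decide)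
                    · exact mp h4 (by decide)
                  · refine ⟨5, mem_cell _ _ _ ?_ ?_ ?_ ?_ ?_ ?_ ?_ ?_ ?_ ?_ ?_ ?_ ?_ ?_ ?_⟩
                    · exact mp h0 (by decide)
                    · exact mp s02 (by decide)
                    · exact mp s03 (by decide)
                    · exact mn s04 (by decide)
                    · exact mn (sw h5) (by decide)
                    · exact mp h1 (by decide)
                    · exact mp s13 (by decide)
                    · exact mp s14 (by decide)
                    · exact mp s15 (by decide)
                    · exact mp h2 (by decide)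
                    · exact mp s24 (by decide)
                    · exact mp s25 (by decide)
                    · exact mp h3 (by decide)
                    · exact mp s35 (by decide)
                    · exact mp h4 (by decide)
                · rcases lt_or_gt_of_ne n15 with s15 | s15
                  · refine ⟨0, mem_cell _ _ _ ?_ ?_ ?_ ?_ ?_ ?_ ?_ ?_ ?_ ?_ ?_ ?_ ?_ ?_ ?_⟩
                    · exact mp h0 (by decide)
                    · exact mp s02 (by decide)
                    · exact mp s03 (by decide)
                    · exact mp s04 (by decide)
                    · exact mn (sw h5) (by decide)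
                    · exact mp h1 (by decide)
                    · exact mp s13 (by decide)
                    · exact mp s14 (by decide)
                    · exact mn s15 (by decide)
                    · exact mp h2 (by decide)
                    · exact mp s24 (by decide)
                    · exact mp s25 (by decide)
                    · exact mp h3 (by decide)
                    · exact mp s35 (by decide)
                    · exact mp h4 (by decide)
                  · refine ⟨2, mem_cell _ _ _ ?_ ?_ ?_ ?_ ?_ ?_ ?_ ?_ ?_ ?_ ?_ ?_ ?_ ?_ ?_⟩
                    · exact mp h0 (by decide)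
                    · exact mp s02 (by decide)
                    · exact mp s03 (by decide)
                    · exact mp s04 (by decide)
                    · exact mn (sw h5) (by decide)
                    · exact mp h1 (by decide)
                    · exact mp s13 (by decide)
                    · exact mp s14 (by decide)
                    · exact mp s15 (by decide)
                    · exact mp h2 (by decide)
                    · exact mp s24 (by decide)
                    · exact mp s25 (by decide)
                    · exact mp h3 (by decide)
                    · exact mp s35 (by decide)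
                    · exact mp h4 (by decide)

/-- The configuration of the hexagon whose long diagonals form a triangle. -/
def confB : Config 25 where
  P := PB
  rep := repB
  hh := 6
  H := sides
  d := 10
  T := tri10
  L := LB
  hP := by decide
  hH := by decide
  hhull := by decide
  hrep := by decide
  hrep2 := by decide
  hdisj := by decide
  hcov := covB
  hT := by decide
  hT1 := by decide
  hL0 := by decide
  hL1 := by decide
  hN := by decide
  hN' := ⟨0⟩

/-! ### The result -/

theorem pt_inj {P : Fin 6 → ℤ × ℤ} (hP : ∀ i j, i < j → P i ≠ P j) :
    Function.Injective fun i => pt (P i) := by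
  intro i j h
  have h1 := congrArg Complex.re h
  have h2 := congrArg Complex.im h
  simp only [pt] at h1 h2
  have h3 : P i = P j := Prod.ext (by exact_mod_cast h1) (by exact_mod_cast h2)
  rcases lt_trichotomy i j with h | h | h
  · exact absurd h3 (hP i j h)
  · exact h
  · exact absurd h3.symm (hP j i h)

theorem chirotope_pt (p q r : ℤ × ℤ) :
    chirotope (pt p) (pt q) (pt r) = SignType.sign (oz p q r) := by
  rw [chirotope, det3_pt]
  rcases lt_trichotomy (oz p q r) 0 with h | h | h
  · rw [sign_neg h, sign_neg (by exact_mod_cast h)]
  · rw [h]; simp
  · rw [sign_pos h, sign_pos (by exact_mod_cast h)]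

theorem same_of {P Q : Fin 6 → ℤ × ℤ} (hP : ∀ i j, i < j → P i ≠ P j)
    (hQ : ∀ i j, i < j → Q i ≠ Q j)
    (h : ∀ i j k, SignType.sign (oz (Q i) (Q j) (Q k)) = SignType.sign (oz (P i) (P j) (P k))) :
    SameOrientedMatroid (Set.range fun i => pt (P i)) (Set.range fun i => pt (Q i)) := by
  refine ⟨(Equiv.ofInjective _ (pt_inj hP)).symm.trans (Equiv.ofInjective _ (pt_inj hQ)), ?_⟩
  have e : ∀ l, ((((Equiv.ofInjective _ (pt_inj hP)).symm.trans (Equiv.ofInjective _ (pt_inj hQ)))
      (⟨pt (P l), l, rfl⟩ : Set.range fun i => pt (P i))) : ℂ) = pt (Q l) := by
    intro l
    have : (⟨pt (P l), l, rfl⟩ : Set.range fun i => pt (P i)) =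
        Equiv.ofInjective _ (pt_inj hP) l := rfl
    rw [Equiv.trans_apply, this, Equiv.symm_apply_apply]
    rfl
  rintro ⟨_, i, rfl⟩ ⟨_, j, rfl⟩ ⟨_, k, rfl⟩
  have h1 := h i j k
  rw [← chirotope_pt, ← chirotope_pt, ← e i, ← e j, ← e k] at h1
  exact h1

theorem same_oriented : SameOrientedMatroid confB.S confA.S :=
  same_of confB.hP confA.hP (by decide)

theorem spanningS {N : ℕ} (C : Config N) (h : 0 < oz (C.P 0) (C.P 1) (C.P 2)) :
    IsFiniteSpanning C.S := by
  refine ⟨Set.finite_range _, _, ⟨0, rfl⟩, _, ⟨1, rfl⟩, _, ⟨2, rfl⟩, ?_⟩
  simp only
  rw [det3_pt]
  exact_mod_cast h.ne'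

theorem noThree {N : ℕ} (C : Config N)
    (h : ∀ i j k, i ≠ j → j ≠ k → i ≠ k → oz (C.P i) (C.P j) (C.P k) ≠ 0) :
    NoThreeCollinear C.S := by
  rintro _ ⟨i, rfl⟩ _ ⟨j, rfl⟩ _ ⟨k, rfl⟩ h1 h2 h3
  simp only
  rw [det3_pt]
  have h1' : i ≠ j := by rintro rfl; exact h1 rfl
  have h2' : j ≠ k := by rintro rfl; exact h2 rfl
  have h3' : i ≠ k := by rintro rfl; exact h3 rfl
  exact_mod_cast h i j k h1' h2' h3'

/-- Two six-element sets without three collinear points, with the same oriented matroid and
with different face lattices. -/
theorem result :
    ∃ S S' : Set ℂ, IsFiniteSpanning S ∧ IsFiniteSpanning S' ∧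
      NoThreeCollinear S ∧ NoThreeCollinear S' ∧ SameOrientedMatroid S S' ∧
      IsEmpty (Face (Kpos S) ≃o Face (Kpos S')) := by
  refine ⟨confB.S, confA.S, spanningS _ (by decide), spanningS _ (by decide),
    noThree _ (by decide), noThree _ (by decide), same_oriented, ⟨fun e => ?_⟩⟩
  obtain ⟨F, hF, hF'⟩ := confB.facets_config
  obtain ⟨G, hG, hG'⟩ := confA.facets_config
  have h1 : ∀ i, ∃ j, e (F i) = G j := fun i => (hG' _).mp (((hF' _).mpr ⟨i, rfl⟩).map e)
  choose g hg using h1
  have hinj : Function.Injective g := by
    intro i j hij
    apply hF
    apply e.injective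
    rw [hg, hg, hij]
  have := Fintype.card_le_of_injective g hinj
  simp at this

end Pool.Agent.Results.MP_41af23_an.ConvexHexagons

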